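import Pool.Agent.Lib.MP_a247fa_nt.CE.Defs

/-! AliveE. For a word which is not low, the critical orbit of every large even `m` in the class of the word
shadows the `T`-orbit (scaled deviation at most `6.705 / π²`) and is in `InJ` at the end of the word; for a low word
it does not shadow. -/

set_option autoImplicit false

namespace Pool.Agent.Lib.MP_a247fa_nt.CE

open Pool.Agent.Lib.MP_a247fa_nt (T cf dcf trapI T_pos)
open Pool.Agent.Lib.MP_a247fa_nt.Crit
open Pool.Agent.Lib.MP_a247fa_nt.CB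

/-- the scaled deviation is near `v`, the ratio near `c` -/
private def Near (δ v c : ℝ) (m n : ℕ) (x : ℝ) : Prop := |(x - n) * n - v| < δ ∧ |(n : ℝ) / m - c| < δ

private theorem near_large {c : ℝ} (hc : 0 < c) (B : ℕ) : ∃ B' : ℕ, 1 ≤ B' ∧ ∀ m n : ℕ, B' ≤ m →
    |(n : ℝ) / m - c| < c / 2 → B ≤ n := by
  obtain ⟨B1, hB1⟩ := exists_nat_ge (2 * B / c)
  refine ⟨max B1 1, le_max_right _ _, fun m n hm h => ?_⟩
  have hm1 : 1 ≤ m := (le_max_right _ _).trans hm
  have hm0 : (0 : ℝ) < m := by exact_mod_cast hm1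
  have h1 := (abs_lt.1 h).1
  have h2 : c / 2 < (n : ℝ) / m := by linarith
  rw [lt_div_iff₀ hm0] at h2
  have h3 : 2 * (B : ℝ) / c ≤ m := hB1.trans (by exact_mod_cast (le_max_left _ _).trans hm)
  rw [div_le_iff₀ hc] at h3
  have h4 : (B : ℝ) ≤ n := by linarith
  exact_mod_cast h4

private theorem near_step (b : Bool) (v c : ℝ) (hc : 0 < c) {δ' : ℝ} (hδ' : 0 < δ') : ∃ δ : ℝ, 0 < δ ∧
    ∃ B : ℕ, ∀ m : ℕ, B ≤ m → ∀ (n : ℕ) (x : ℝ), Near δ v c m n x → (n % 2 == 1) = b →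
      Near δ' (stepV b v) (if b then 3 / 2 * c else 1 / 2 * c) m (T n) (cf x) := by
  cases b with
  | true =>
    obtain ⟨δ1, hδ1, B1, h1⟩ := step_odd v hδ'
    obtain ⟨B2, hB2, h2⟩ := near_large hc B1
    obtain ⟨B3, hB3⟩ := exists_nat_ge (1 / δ')
    refine ⟨min δ1 (min (c / 2) (δ' / 3)), lt_min hδ1 (lt_min (by positivity) (by positivity)),
      max B2 (B3 + 1), fun m hm n x hn hb => ?_⟩
    obtain ⟨ha, hr⟩ := hn
    have hodd : n % 2 = 1 := by simpa using hb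
    have hmB2 : B2 ≤ m := (le_max_left _ _).trans hm
    have hm0 : (0 : ℝ) < m := by
      have : 1 ≤ m := hB2.trans hmB2
      exact_mod_cast this
    have hr1 : |(n : ℝ) / m - c| < c / 2 := lt_of_lt_of_le hr ((min_le_right _ _).trans (min_le_left _ _))
    have hr2 : |(n : ℝ) / m - c| < δ' / 3 := lt_of_lt_of_le hr ((min_le_right _ _).trans (min_le_right _ _))
    have hnB := h2 m n hmB2 hr1
    refine ⟨h1 n hnB hodd x (lt_of_lt_of_le ha (min_le_left _ _)), ?_⟩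
    have hT : ((T n : ℕ) : ℝ) = (3 * n + 1) / 2 := Pool.Agent.Lib.MP_a247fa_nt.T_odd hodd
    rw [hT, if_pos rfl]
    have e : (3 * (n : ℝ) + 1) / 2 / m - 3 / 2 * c = 3 / 2 * ((n : ℝ) / m - c) + 1 / (2 * m) := by
      field_simp
      ring
    rw [e]
    have h3 : 1 / (2 * (m : ℝ)) < δ' / 2 := by
      have hm3 : (B3 : ℝ) + 1 ≤ m := by exact_mod_cast (le_max_right _ _).trans hm
      have h4 : 1 / δ' < m := by linarith
      rw [div_lt_iff₀ hδ'] at h4
      rw [div_lt_iff₀ (by positivity)]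
      nlinarith
    have h5 : 0 < 1 / (2 * (m : ℝ)) := by positivity
    rw [abs_lt] at hr2 ⊢
    constructor <;> linarith [hr2.1, hr2.2]
  | false =>
    obtain ⟨δ1, hδ1, B1, h1⟩ := step_even v hδ'
    obtain ⟨B2, hB2, h2⟩ := near_large hc B1
    refine ⟨min δ1 (min (c / 2) δ'), lt_min hδ1 (lt_min (by positivity) (by positivity)),
      B2, fun m hm n x hn hb => ?_⟩
    obtain ⟨ha, hr⟩ := hn
    have hev : n % 2 = 0 := by
      have : ¬ (n % 2 = 1) := by simpa using hb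
      omega
    have hm0 : (0 : ℝ) < m := by
      have : 1 ≤ m := hB2.trans hm
      exact_mod_cast this
    have hr1 : |(n : ℝ) / m - c| < c / 2 := lt_of_lt_of_le hr ((min_le_right _ _).trans (min_le_left _ _))
    have hr2 : |(n : ℝ) / m - c| < δ' := lt_of_lt_of_le hr ((min_le_right _ _).trans (min_le_right _ _))
    have hnB := h2 m n hm hr1
    refine ⟨h1 n hnB hev x (lt_of_lt_of_le ha (min_le_left _ _)), ?_⟩
    have hT : ((T n : ℕ) : ℝ) = n / 2 := Pool.Agent.Lib.MP_a247fa_nt.T_even hev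
    rw [hT, if_neg (by simp)]
    have e : (n : ℝ) / 2 / m - 1 / 2 * c = 1 / 2 * ((n : ℝ) / m - c) := by ring
    rw [e]
    rw [abs_lt] at hr2 ⊢
    constructor <;> linarith [hr2.1, hr2.2]

private theorem iter_trap {n : ℕ} (hn : 0 < n) {x : ℝ} (h : x ∈ trapI n) (k : ℕ) :
    cf^[k] x ∈ trapI (T^[k] n) := (Pool.Agent.Lib.MP_a247fa_nt.iter_mem_trap hn h k).2

/-- the deviation tends to a value in `(0, 2/5)`: in the trap -/
private theorem near_trap {v c : ℝ} (h0 : 0 < v) (h1 : v < 2 / 5) (hc : 0 < c) : ∃ δ : ℝ, 0 < δ ∧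
    ∃ B : ℕ, ∀ m : ℕ, B ≤ m → ∀ (n : ℕ) (x : ℝ), Near δ v c m n x → 0 < n ∧ x ∈ trapI n := by
  obtain ⟨B1, hB1⟩ := exists_nat_ge (2 / (2 / 5 - v))
  obtain ⟨B2, hB2, h2⟩ := near_large hc (B1 + 1)
  refine ⟨min (min v ((2 / 5 - v) / 2)) (c / 2), lt_min (lt_min h0 (by linarith)) (by positivity), B2,
    fun m hm n x hn => ?_⟩
  obtain ⟨ha, hr⟩ := hn
  have hnB := h2 m n hm (lt_of_lt_of_le hr (min_le_right _ _))
  have hn1 : 0 < n := by omega
  have hnR : (0 : ℝ) < n := by exact_mod_cast hn1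
  have ha1 : |(x - n) * n - v| < v := lt_of_lt_of_le ha ((min_le_left _ _).trans (min_le_left _ _))
  have ha2 : |(x - n) * n - v| < (2 / 5 - v) / 2 :=
    lt_of_lt_of_le ha ((min_le_left _ _).trans (min_le_right _ _))
  have h3 : 0 < (x - n) * n := by linarith [(abs_lt.1 ha1).1]
  have h4 : (x - n) * n < (2 / 5 + v) / 2 := by linarith [(abs_lt.1 ha2).2]
  have h5 : 0 < x - n := (pos_iff_pos_of_mul_pos h3).mpr hnR
  refine ⟨hn1, by linarith, ?_⟩
  have h6 : x - n ≤ 4 / (5 * (2 * (n : ℝ) + 1)) := by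
    rw [le_div_iff₀ (by positivity)]
    have h7 : 2 / (2 / 5 - v) ≤ n := hB1.trans (by exact_mod_cast (by omega : B1 ≤ n))
    rw [div_le_iff₀ (by linarith)] at h7
    have h8 : (x - n) * 1 ≤ (x - n) * n := by
      apply mul_le_mul_of_nonneg_left _ h5.le
      exact_mod_cast hn1
    -- (x - n) * (10 n + 5) ≤ 5 + 5 v ... small
    have h9 : (x - n) < (2 / 5 - v) / 2 * (1 / 2) := by
      have h10 : (x - n) * n < 2 / 5 := by linarith
      have h11 : (x - n) * (2 / (2 / 5 - v)) ≤ (x - n) * n := by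
        apply mul_le_mul_of_nonneg_left _ h5.le
        rw [div_le_iff₀ (by linarith)]
        exact h7
      have h12 : (x - n) * (2 / (2 / 5 - v)) < 2 / 5 := lt_of_le_of_lt h11 h10
      rw [← mul_div_assoc, div_lt_iff₀ (by linarith)] at h12
      nlinarith
    nlinarith
  linarith

/-- the deviation tends to `0` -/
private theorem near_zero_fin {c : ℝ} (hc : 0 < c) : ∃ δ : ℝ, 0 < δ ∧
    ∃ B : ℕ, ∀ m : ℕ, B ≤ m → ∀ (n : ℕ) (x : ℝ), Near δ 0 c m n x →
      InJ (3 * (5 / 2 * (m : ℝ)) ^ 2) n x := by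
  obtain ⟨B2, hB2, h2⟩ := near_large hc 1
  refine ⟨min (min (1 / 10) (c ^ 2 / 75)) (c / 2), lt_min (lt_min (by norm_num) (by positivity))
    (by positivity), B2, fun m hm n x hn => ?_⟩
  obtain ⟨ha, hr⟩ := hn
  have hr1 : |(n : ℝ) / m - c| < c / 2 := lt_of_lt_of_le hr (min_le_right _ _)
  have hnB := h2 m n hm hr1
  have hnR : (1 : ℝ) ≤ n := by exact_mod_cast hnB
  have hm0 : (0 : ℝ) < m := by
    have : 1 ≤ m := hB2.trans hm
    exact_mod_cast this
  have ha1 : |(x - n) * n - 0| < 1 / 10 := lt_of_lt_of_le ha ((min_le_left _ _).trans (min_le_left _ _))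
  have ha2 : |(x - n) * n - 0| < c ^ 2 / 75 :=
    lt_of_lt_of_le ha ((min_le_left _ _).trans (min_le_right _ _))
  rw [sub_zero] at ha1 ha2
  rcases le_or_gt (n : ℝ) x with hx | hx
  · left
    refine ⟨hx, ?_⟩
    have h3 := (abs_lt.1 ha1).2
    have h4 : x - n ≤ 4 / (5 * (2 * (n : ℝ) + 1)) := by
      rw [le_div_iff₀ (by positivity)]
      have h5 : (x - n) * 1 ≤ (x - n) * n := mul_le_mul_of_nonneg_left hnR (by linarith)
      nlinarith
    linarith
  · right
    refine ⟨hx, ?_⟩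
    have h3 := (abs_lt.1 ha2).1
    have h4 : (n - x) * n < c ^ 2 / 75 := by linarith
    have h5 : c / 2 * m < n := by
      have := (abs_lt.1 hr1).1
      have h6 : c / 2 < (n : ℝ) / m := by linarith
      rwa [lt_div_iff₀ hm0] at h6
    have h6 : (c / 2 * m) ^ 2 ≤ (n : ℝ) ^ 2 := pow_le_pow_left₀ (by positivity) h5.le 2
    have h7 : (n - x) * (3 * (5 / 2 * (m : ℝ)) ^ 2 - 4 / 3 * (n : ℝ) ^ 2) * n ≤ n * n := by
      have h8 : (n - x) * (3 * (5 / 2 * (m : ℝ)) ^ 2 - 4 / 3 * (n : ℝ) ^ 2) * n =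
        (n - x) * n * (75 / 4 * (m : ℝ) ^ 2) - (n - x) * n * (4 / 3 * (n : ℝ) ^ 2) := by ring
      have h9 : 0 ≤ (n - x) * n := mul_nonneg (by linarith) (by linarith)
      have h10 : 0 ≤ (n - x) * n * (4 / 3 * (n : ℝ) ^ 2) := by positivity
      have h11 : (n - x) * n * (75 / 4 * (m : ℝ) ^ 2) ≤ c ^ 2 / 75 * (75 / 4 * (m : ℝ) ^ 2) :=
        mul_le_mul_of_nonneg_right h4.le (by positivity)
      nlinarith
    exact le_of_mul_le_mul_right h7 (by linarith)

/-- the deviation tends to a value `v < 0` satisfying the invariant -/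
private theorem near_left_fin {v c : ℝ} (hv : v < 0) (hc : 0 < c)
    (hinv : -v * (75 / 4 - 4 / 3 * c ^ 2) < c ^ 2) : ∃ δ : ℝ, 0 < δ ∧
    ∃ B : ℕ, ∀ m : ℕ, B ≤ m → ∀ (n : ℕ) (x : ℝ), Near δ v c m n x →
      InJ (3 * (5 / 2 * (m : ℝ)) ^ 2) n x := by
  have hcont : Continuous (fun p : ℝ × ℝ => -p.1 * (75 / 4 - 4 / 3 * p.2 ^ 2) - p.2 ^ 2) := by
    fun_prop
  have h1 : ∀ᶠ p in nhds ((v, c) : ℝ × ℝ), -p.1 * (75 / 4 - 4 / 3 * p.2 ^ 2) - p.2 ^ 2 < 0 :=
    (hcont.tendsto (v, c)).eventually (gt_mem_nhds (by simpa using hinv))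
  rw [Metric.eventually_nhds_iff] at h1
  obtain ⟨δ, hδ, h1⟩ := h1
  obtain ⟨B2, hB2, h2⟩ := near_large hc 1
  refine ⟨min (min δ (-v)) (c / 2), lt_min (lt_min hδ (by linarith)) (by positivity), B2,
    fun m hm n x hn => ?_⟩
  obtain ⟨ha, hr⟩ := hn
  have hr1 : |(n : ℝ) / m - c| < c / 2 := lt_of_lt_of_le hr (min_le_right _ _)
  have hr2 : |(n : ℝ) / m - c| < δ := lt_of_lt_of_le hr ((min_le_left _ _).trans (min_le_left _ _))
  have hnB := h2 m n hm hr1
  have hnR : (1 : ℝ) ≤ n := by exact_mod_cast hnB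
  have hm0 : (0 : ℝ) < m := by
    have : 1 ≤ m := hB2.trans hm
    exact_mod_cast this
  have ha1 : |(x - n) * n - v| < δ := lt_of_lt_of_le ha ((min_le_left _ _).trans (min_le_left _ _))
  have ha2 : |(x - n) * n - v| < -v :=
    lt_of_lt_of_le ha ((min_le_left _ _).trans (min_le_right _ _))
  have h3 : (x - n) * n < 0 := by linarith [(abs_lt.1 ha2).2]
  have h4 : x - n < 0 := by
    by_contra h
    push Not at h
    have : 0 ≤ (x - n) * n := mul_nonneg h (by linarith)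
    linarith
  have h5 := h1 (y := ((x - n) * n, (n : ℝ) / m)) (by
    rw [Prod.dist_eq]
    exact max_lt (by rw [Real.dist_eq]; exact ha1) (by rw [Real.dist_eq]; exact hr2))
  right
  refine ⟨by linarith, ?_⟩
  have h6 : (n - x) * (3 * (5 / 2 * (m : ℝ)) ^ 2 - 4 / 3 * (n : ℝ) ^ 2) * n ≤ n * n := by
    have h7 : -((x - n) * n) * (75 / 4 - 4 / 3 * ((n : ℝ) / m) ^ 2) - ((n : ℝ) / m) ^ 2 < 0 := h5
    have h8 : (-((x - n) * n) * (75 / 4 - 4 / 3 * ((n : ℝ) / m) ^ 2) - ((n : ℝ) / m) ^ 2) * (m : ℝ) ^ 2 =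
        (n - x) * (3 * (5 / 2 * (m : ℝ)) ^ 2 - 4 / 3 * (n : ℝ) ^ 2) * n - n * n := by
      field_simp
      ring
    have h9 : (-((x - n) * n) * (75 / 4 - 4 / 3 * ((n : ℝ) / m) ^ 2) - ((n : ℝ) / m) ^ 2) * (m : ℝ) ^ 2 ≤ 0 :=
      mul_nonpos_of_nonpos_of_nonneg h7.le (by positivity)
    linarith
  exact le_of_mul_le_mul_right h6 (by linarith)

theorem she_trap {n : ℕ} {x : ℝ} (h : x ∈ trapI n) : ShE n x := by
  obtain ⟨h1, h2⟩ := h
  have hn : (0 : ℝ) ≤ n := Nat.cast_nonneg n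
  unfold ShE
  rw [abs_of_nonneg (mul_nonneg (by linarith) hn)]
  have h3 : x - n ≤ 4 / (5 * (2 * (n : ℝ) + 1)) := by linarith
  have h4 : (x - n) * n ≤ 4 / (5 * (2 * (n : ℝ) + 1)) * n := mul_le_mul_of_nonneg_right h3 hn
  have h5 : 4 / (5 * (2 * (n : ℝ) + 1)) * n ≤ 6 / 10 := by
    rw [div_mul_eq_mul_div, div_le_iff₀ (by positivity)]
    linarith
  have h6 := th_gt
  linarith

private theorem sh_near {δ v c : ℝ} {m n : ℕ} {x : ℝ} (h : Near δ v c m n x) (hδ : δ ≤ th - |v|) : ShE n x := by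
  unfold ShE
  have h1 := abs_lt.1 h.1
  have h2 := abs_le.1 (le_refl |v|)
  rw [abs_le]
  constructor <;> linarith [h1.1, h1.2, h2.1, h2.2]

private theorem far_near {δ v c : ℝ} {m n : ℕ} {x : ℝ} (h : Near δ v c m n x) (hv : v < -th) (hδ : δ ≤ -th - v) :
    ¬ ShE n x := by
  unfold ShE
  have h1 := abs_lt.1 h.1
  have h3 := th_pos
  rw [not_le]
  have h4 : (x - n) * n < -th := by linarith [h1.2]
  rw [abs_of_neg (by linarith)]
  linarith

/-- the statement for a word -/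
private def Stm (w : List Bool) (v c : ℝ) : Prop := ∃ δ : ℝ, 0 < δ ∧
    ∃ B : ℕ, ∀ m : ℕ, B ≤ m → ∀ (n : ℕ) (x : ℝ), Near δ v c m n x → pw w.length n = w →
      InJ (3 * (5 / 2 * (m : ℝ)) ^ 2) (T^[w.length] n) (cf^[w.length] x) ∧
      ∀ i ≤ w.length, ShE (T^[i] n) (cf^[i] x)

private theorem near_mono {δ δ' v c : ℝ} {m n : ℕ} {x : ℝ} (h : Near δ v c m n x) (hδ : δ ≤ δ') :
    Near δ' v c m n x := ⟨lt_of_lt_of_le h.1 hδ, lt_of_lt_of_le h.2 hδ⟩

private theorem stm_cons {b : Bool} {w : List Bool} {v c : ℝ} (hc : 0 < c) (hv : |v| < th)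
    (h : Stm w (stepV b v) (if b then 3 / 2 * c else 1 / 2 * c)) : Stm (b :: w) v c := by
  obtain ⟨δ', hδ', B', h'⟩ := h
  obtain ⟨δ, hδ, B, h1⟩ := near_step b v c hc hδ'
  refine ⟨min δ (th - |v|), lt_min hδ (by linarith), max B B', fun m hm n x hn hw => ?_⟩
  simp only [List.length_cons, pw, List.cons.injEq] at hw
  obtain ⟨hb, hw⟩ := hw
  have h2 := h1 m ((le_max_left _ _).trans hm) n x (near_mono hn (min_le_left _ _)) hb
  obtain ⟨h3, h4⟩ := h' m ((le_max_right _ _).trans hm) (T n) (cf x) h2 hw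
  refine ⟨by simpa only [List.length_cons, Function.iterate_succ_apply] using h3, fun i hi => ?_⟩
  rcases i with _ | i
  · exact sh_near hn (min_le_right _ _)
  · simp only [List.length_cons, Nat.add_le_add_iff_right] at hi
    simpa only [Function.iterate_succ_apply] using h4 i hi

private theorem c_pos {b : Bool} {c : ℝ} (hc : 0 < c) : 0 < (if b then 3 / 2 * c else 1 / 2 * c) := by
  split_ifs <;> positivity

private theorem stm_zero (w : List Bool) : ∀ c : ℝ, 0 < c → Stm w 0 c := by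
  have h0 : |(0 : ℝ)| < th := by rw [abs_zero]; exact th_pos
  induction w with
  | nil =>
    intro c hc
    obtain ⟨δ, hδ, B, h⟩ := near_zero_fin hc
    refine ⟨min δ (th - |0|), lt_min hδ (by linarith), B, fun m hm n x hn _ =>
      ⟨h m hm n x (near_mono hn (min_le_left _ _)), fun i hi => ?_⟩⟩
    have hi0 : i = 0 := by simpa using hi
    subst hi0
    exact sh_near hn (min_le_right _ _)
  | cons b w ih =>
    intro c hc
    apply stm_cons hc h0
    have h0 : stepV b 0 = 0 := by cases b <;> simp [stepV]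
    rw [h0]
    exact ih _ (c_pos hc)

private theorem stm_trap (w : List Bool) {v c : ℝ} (h0 : 0 < v) (h1 : v < 2 / 5) (hc : 0 < c) :
    Stm w v c := by
  obtain ⟨δ, hδ, B, h⟩ := near_trap h0 h1 hc
  refine ⟨δ, hδ, B, fun m hm n x hn _ => ?_⟩
  obtain ⟨hn0, hx⟩ := h m hm n x hn
  exact ⟨Or.inl (iter_trap hn0 hx _), fun i _ => she_trap (iter_trap hn0 hx i)⟩

/-- the invariant -/
private def Inv (v c : ℝ) : Prop := -v * ((2 * Real.pi ^ 2 + 1 / 3) - 4 / 3 * c ^ 2) ≤ c ^ 2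

private theorem inv_odd {v c : ℝ} (hv : v < 0) (h : Inv v c) :
    stepV true v < 0 ∧ Inv (stepV true v) (3 / 2 * c) := by
  have h1 := Pool.Agent.Lib.MP_a247fa_nt.pi_sq_gt
  have h2 := Pool.Agent.Lib.MP_a247fa_nt.pi_sq_lt
  unfold Inv at *
  simp only [stepV]
  set q := Real.pi ^ 2 with hq
  set u := -v with hu
  have hv' : v = -u := by rw [hu]; ring
  have hu0 : 0 < u := by rw [hu]; linarith
  rw [hv']
  constructor
  · nlinarith [sq_nonneg u]
  · have e : -(9 / 4 * -u - 3 * q / 8 * (-u) ^ 2) = 9 / 4 * u * (1 + q / 6 * u) := by ring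
    rw [e]
    have e2 : (3 / 2 * c) ^ 2 = 9 / 4 * c ^ 2 := by ring
    rw [e2]
    have h3 : u * (2 * q + 1 / 3 - 4 / 3 * (9 / 4 * c ^ 2)) ≤ c ^ 2 * (1 - 5 / 3 * u) := by nlinarith
    have h4 : 0 < 1 + q / 6 * u := by nlinarith
    have h5 : (1 + q / 6 * u) * (1 - 5 / 3 * u) ≤ 1 := by nlinarith [mul_pos hu0 hu0]
    have h6 : (1 + q / 6 * u) * (u * (2 * q + 1 / 3 - 4 / 3 * (9 / 4 * c ^ 2))) ≤
        (1 + q / 6 * u) * (c ^ 2 * (1 - 5 / 3 * u)) := mul_le_mul_of_nonneg_left h3 h4.le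
    have h7 : (1 + q / 6 * u) * (c ^ 2 * (1 - 5 / 3 * u)) ≤ c ^ 2 := by
      have := mul_le_mul_of_nonneg_left h5 (sq_nonneg c)
      linarith
    linarith

private theorem inv_even {v c : ℝ} (hv : v < 0) (h : Inv v c) (h' : stepV false v < 0) :
    Inv (stepV false v) (1 / 2 * c) := by
  have h1 := Pool.Agent.Lib.MP_a247fa_nt.pi_sq_gt
  have h2 := Pool.Agent.Lib.MP_a247fa_nt.pi_sq_lt
  unfold Inv at *
  simp only [stepV] at *
  set q := Real.pi ^ 2 with hq
  set u := -v with hu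
  have hv' : v = -u := by rw [hu]; ring
  have hu0 : 0 < u := by rw [hu]; linarith
  rw [hv'] at h' ⊢
  have e : -(-u / 4 + q / 8 * (-u) ^ 2) = u / 4 * (1 - q / 2 * u) := by ring
  rw [e]
  have e2 : (1 / 2 * c) ^ 2 = 1 / 4 * c ^ 2 := by ring
  rw [e2]
  have h3 : 0 < 1 - q / 2 * u := by
    have h4 : 0 < u / 4 * (1 - q / 2 * u) := by linarith
    exact (pos_iff_pos_of_mul_pos h4).mp (by positivity)
  have h5 : u * (2 * q + 1 / 3 - 4 / 3 * (1 / 4 * c ^ 2)) ≤ c ^ 2 * (1 + u) := by nlinarith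
  have h6 : (1 - q / 2 * u) * (u * (2 * q + 1 / 3 - 4 / 3 * (1 / 4 * c ^ 2))) ≤
      (1 - q / 2 * u) * (c ^ 2 * (1 + u)) := mul_le_mul_of_nonneg_left h5 h3.le
  have h7 : (1 - q / 2 * u) * (1 + u) ≤ 1 := by nlinarith [mul_pos hu0 hu0]
  have h8 := mul_le_mul_of_nonneg_left h7 (sq_nonneg c)
  linarith

private theorem inv_fin {v c : ℝ} (hv : v < 0) (h : Inv v c) : -v * (75 / 4 - 4 / 3 * c ^ 2) < c ^ 2 := by
  have h1 := Pool.Agent.Lib.MP_a247fa_nt.pi_sq_gt
  unfold Inv at h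
  nlinarith

/-- dyadic rationals -/
private def Dy (r : ℝ) : Prop := ∃ (a : ℤ) (k : ℕ), r = a / 2 ^ k

private theorem dy_ne {r : ℝ} (h : Dy r) : r ≠ -(1341 / 200) := by
  obtain ⟨a, k, rfl⟩ := h
  intro h
  have h2 : (2 : ℝ) ^ k ≠ 0 := by positivity
  rw [div_eq_iff h2] at h
  have h3 : (200 : ℝ) * a = -1341 * 2 ^ k := by linarith
  have h4 : (200 : ℤ) * a = -1341 * 2 ^ k := by exact_mod_cast h3
  have h5 : (25 : ℤ) ∣ 1341 * 2 ^ k := by
    refine ⟨-(8 * a), ?_⟩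
    linarith
  have h6 : IsCoprime (25 : ℤ) (2 ^ k) := by
    apply IsCoprime.pow_right
    norm_num
  have h7 : (25 : ℤ) ∣ 1341 := h6.dvd_of_dvd_mul_right h5
  norm_num at h7

private theorem dy_step {r : ℝ} (h : Dy r) (b : Bool) : Dy (stepR b r) := by
  obtain ⟨a, k, rfl⟩ := h
  have h2 : (2 : ℝ) ^ k ≠ 0 := by positivity
  cases b with
  | true =>
    refine ⟨3 * a * (6 * 2 ^ k - a), 2 * k + 3, ?_⟩
    simp only [stepR]
    push_cast
    rw [pow_add, pow_mul']
    field_simp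
    ring
  | false =>
    refine ⟨a * (a + 2 * 2 ^ k), 2 * k + 3, ?_⟩
    simp only [stepR]
    push_cast
    rw [pow_add, pow_mul']
    field_simp
    ring

private theorem abs_lt_th {r : ℝ} (h0 : r < 0) (h : ¬ r < -(1341 / 200)) (hd : Dy r) :
    |r / Real.pi ^ 2| < th := by
  have hpi : 0 < Real.pi ^ 2 := by positivity
  have h1 : -(1341 / 200) < r := lt_of_le_of_ne (not_lt.1 h) (Ne.symm (dy_ne hd))
  rw [abs_div, abs_of_neg h0, abs_of_pos hpi]
  unfold th
  gcongr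
  linarith

private theorem even_lt {r : ℝ} (hr : r < 0) (h : ¬ r < -(1341 / 200)) :
    stepR false r / Real.pi ^ 2 < 2 / 5 := by
  have h2 := Pool.Agent.Lib.MP_a247fa_nt.pi_sq_gt
  have hpi : 0 < Real.pi ^ 2 := by positivity
  simp only [stepR]
  rw [not_lt] at h
  rw [div_lt_iff₀ hpi]
  have h3 : r ^ 2 ≤ (1341 / 200) ^ 2 := by nlinarith
  nlinarith

private theorem stm_main (w : List Bool) : ∀ r c : ℝ, 0 < c → r < 0 → Dy r → Inv (r / Real.pi ^ 2) c →
    ¬ Low r w → Stm w (r / Real.pi ^ 2) c := by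
  have hpi : 0 < Real.pi ^ 2 := by positivity
  induction w with
  | nil =>
    intro r c hc hr hdy hinv hd
    simp only [Low] at hd
    have hv : r / Real.pi ^ 2 < 0 := div_neg_of_neg_of_pos hr hpi
    have ha := abs_lt_th hr hd hdy
    obtain ⟨δ, hδ, B, h⟩ := near_left_fin hv hc (inv_fin hv hinv)
    refine ⟨min δ (th - |r / Real.pi ^ 2|), lt_min hδ (by linarith), B, fun m hm n x hn _ =>
      ⟨h m hm n x (near_mono hn (min_le_left _ _)), fun i hi => ?_⟩⟩
    have hi0 : i = 0 := by simpa using hi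
    subst hi0
    exact sh_near hn (min_le_right _ _)
  | cons b w ih =>
    intro r c hc hr hdy hinv hd
    simp only [Low, not_or] at hd
    obtain ⟨h1, h3⟩ := hd
    have hv : r / Real.pi ^ 2 < 0 := div_neg_of_neg_of_pos hr hpi
    apply stm_cons hc (abs_lt_th hr h1 hdy)
    cases b with
    | true =>
      obtain ⟨h4, h5⟩ := inv_odd hv hinv
      rw [if_pos rfl]
      rw [stepV_div] at h4 h5 ⊢
      have h6 : stepR true r < 0 := by
        by_contra h
        push Not at h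
        have := div_nonneg h hpi.le
        linarith
      exact ih _ _ (by positivity) h6 (dy_step hdy _) h5 h3
    | false =>
      rw [if_neg (by simp)]
      rcases lt_trichotomy (stepR false r) 0 with h4 | h4 | h4
      · have h5 : stepV false (r / Real.pi ^ 2) < 0 := by
          rw [stepV_div]
          exact div_neg_of_neg_of_pos h4 hpi
        have h6 := inv_even hv hinv h5
        rw [stepV_div] at h6 ⊢
        exact ih _ _ (by positivity) h4 (dy_step hdy _) h6 h3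
      · rw [stepV_div, h4, zero_div]
        exact stm_zero w _ (by positivity)
      · rw [stepV_div]
        exact stm_trap w (div_pos h4 hpi) (even_lt hr h1) (by positivity)

/-- the statement for a low word -/
private def Stl (w : List Bool) (v c : ℝ) : Prop := ∃ δ : ℝ, 0 < δ ∧
    ∃ B : ℕ, ∀ m : ℕ, B ≤ m → ∀ (n : ℕ) (x : ℝ), Near δ v c m n x → pw w.length n = w →
      ∃ i ≤ w.length, ¬ ShE (T^[i] n) (cf^[i] x)

private theorem stl_here (w : List Bool) {r c : ℝ} (hr : r < -(1341 / 200)) : Stl w (r / Real.pi ^ 2) c := by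
  have hpi : 0 < Real.pi ^ 2 := by positivity
  have hv : r / Real.pi ^ 2 < -th := by
    unfold th
    rw [← neg_div]
    gcongr
  exact ⟨-th - r / Real.pi ^ 2, by linarith, 0, fun m _ n x hn _ => ⟨0, Nat.zero_le _, far_near hn hv le_rfl⟩⟩

private theorem stl_main (w : List Bool) : ∀ r c : ℝ, 0 < c → Low r w → Stl w (r / Real.pi ^ 2) c := by
  induction w with
  | nil =>
    intro r c _ h
    exact stl_here [] h
  | cons b w ih =>
    intro r c hc h
    rcases h with h | h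
    · exact stl_here _ h
    · obtain ⟨δ', hδ', B', h'⟩ := ih (stepR b r) (if b then 3 / 2 * c else 1 / 2 * c) (c_pos hc) h
      rw [← stepV_div] at h'
      obtain ⟨δ, hδ, B, h1⟩ := near_step b (r / Real.pi ^ 2) c hc hδ'
      refine ⟨δ, hδ, max B B', fun m hm n x hn hw => ?_⟩
      simp only [List.length_cons, pw, List.cons.injEq] at hw
      obtain ⟨hb, hw⟩ := hw
      have h2 := h1 m ((le_max_left _ _).trans hm) n x hn hb
      obtain ⟨i, hi, h4⟩ := h' m ((le_max_right _ _).trans hm) (T n) (cf x) h2 hw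
      refine ⟨i + 1, by simpa using hi, ?_⟩
      simpa only [Function.iterate_succ_apply] using h4

private theorem start_near {δ : ℝ} (hδ : 0 < δ) : ∃ B : ℕ, ∀ m : ℕ, B ≤ m → m % 2 = 0 → ∀ c : ℝ, IsCrit m c →
    Near δ (-(1 / Real.pi ^ 2)) 1 m m c := by
  obtain ⟨B1, h4⟩ := start_lim hδ
  refine ⟨max B1 1, fun m hm he c hc => ⟨h4 m ((le_max_left _ _).trans hm) he c hc, ?_⟩⟩
  have hm1 : 1 ≤ m := (le_max_right _ _).trans hm
  have hm0 : (m : ℝ) ≠ 0 := by
    have : (0 : ℝ) < m := by exact_mod_cast hm1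
    exact this.ne'
  rw [div_self hm0, sub_self, abs_zero]
  exact hδ

private theorem pw_cons {m : ℕ} (he : m % 2 = 0) {w : List Bool} (hw : pw w.length (T m) = w) :
    pw (false :: w).length m = false :: w := by
  simp only [List.length_cons, pw, List.cons.injEq]
  refine ⟨?_, hw⟩
  rw [he]
  rfl

private theorem step_start : stepV false (-(1 / Real.pi ^ 2)) = -(1 / 8) / Real.pi ^ 2 := by
  have hpi : Real.pi ^ 2 ≠ 0 := by positivity
  simp only [stepV]
  field_simp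
  ring

theorem alive_finE (w : List Bool) (h : ¬ Low (-(1 / 8)) w) : ∃ B : ℕ, ∀ m : ℕ, B ≤ m →
    m % 2 = 0 → pw w.length (T m) = w → ∀ c : ℝ, IsCrit m c →
      InJ (3 * (5 / 2 * (m : ℝ)) ^ 2) (T^[w.length + 1] m) (cf^[w.length + 1] c) ∧
      ∀ i ≤ w.length + 1, ShE (T^[i] m) (cf^[i] c) := by
  have hpi : 0 < Real.pi ^ 2 := by positivity
  have hinv : Inv (-(1 / 8) / Real.pi ^ 2) (1 / 2 * 1) := by
    unfold Inv
    have e : -(-(1 / 8) / Real.pi ^ 2) * (2 * Real.pi ^ 2 + 1 / 3 - 4 / 3 * (1 / 2 * 1) ^ 2) =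
      (1 / 2 * 1) ^ 2 := by
      field_simp
      ring
    exact e.le
  have h1 : Stm w (-(1 / 8) / Real.pi ^ 2) (1 / 2 * 1) :=
    stm_main w _ _ (by norm_num) (by norm_num) ⟨-1, 3, by norm_num⟩ hinv h
  have h2 : Stm (false :: w) (-(1 / Real.pi ^ 2)) 1 := by
    apply stm_cons one_pos (by
      rw [abs_neg, abs_of_nonneg (by positivity)]
      unfold th
      gcongr
      norm_num)
    rw [step_start, if_neg (by simp)]
    exact h1
  obtain ⟨δ, hδ, B, h3⟩ := h2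
  obtain ⟨B1, h4⟩ := start_near hδ
  refine ⟨max B B1, fun m hm he hw c hc => ?_⟩
  have h5 := h3 m ((le_max_left _ _).trans hm) m c (h4 m ((le_max_right _ _).trans hm) he c hc) (pw_cons he hw)
  simpa only [List.length_cons] using h5

theorem low_finE (w : List Bool) (h : Low (-(1 / 8)) w) : ∃ B : ℕ, ∀ m : ℕ, B ≤ m →
    m % 2 = 0 → pw w.length (T m) = w → ∀ c : ℝ, IsCrit m c →
      ∃ i ≤ w.length + 1, ¬ ShE (T^[i] m) (cf^[i] c) := by
  obtain ⟨δ', hδ', B', h'⟩ := stl_main w (-(1 / 8)) (1 / 2 * 1) (by norm_num) h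
  rw [← step_start] at h'
  have e : (1 / 2 * 1 : ℝ) = (if false = true then 3 / 2 * (1 : ℝ) else 1 / 2 * 1) := by rw [if_neg (by simp)]
  rw [e] at h'
  obtain ⟨δ, hδ, B, h1⟩ := near_step false (-(1 / Real.pi ^ 2)) 1 one_pos hδ'
  obtain ⟨B1, h4⟩ := start_near hδ
  refine ⟨max (max B B1) B', fun m hm he hw c hc => ?_⟩
  have hm1 : B ≤ m := (le_max_left _ _).trans ((le_max_left _ _).trans hm)
  have hm2 : B1 ≤ m := (le_max_right _ _).trans ((le_max_left _ _).trans hm)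
  have h2 := h1 m hm1 m c (h4 m hm2 he c hc) (by rw [he]; rfl)
  obtain ⟨i, hi, h5⟩ := h' m ((le_max_right _ _).trans hm) (T m) (cf c) h2 hw
  refine ⟨i + 1, by omega, ?_⟩
  simpa only [Function.iterate_succ_apply] using h5

end Pool.Agent.Lib.MP_a247fa_nt.CE
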