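import Pool.Agent.Lib.MP_a247fa_nt.CE.AliveE

/-! CaseE: as CB/CaseS, with the bound `6.705 / π²`. -/

set_option autoImplicit false

namespace Pool.Agent.Lib.MP_a247fa_nt.CE

open Pool.Agent.Lib.MP_e43fce_nt_nat
open Pool.Agent.Lib.MP_a247fa_nt (T cf dcf T_pos)
open Pool.Agent.Lib.MP_a247fa_nt.Crit
open Pool.Agent.Lib.MP_a247fa_nt.CB

/-- `InJ` and `n ≤ 5/2 m` give the shadowing bound -/
theorem she_inJ {m n : ℕ} {x : ℝ} (hn : 0 < n) (hnm : (n : ℝ) ≤ 5 / 2 * m)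
    (h : InJ (3 * (5 / 2 * (m : ℝ)) ^ 2) n x) : ShE n x := by
  rcases h with h | ⟨h1, h2⟩
  · exact she_trap h
  · have hn0 : (0 : ℝ) < n := by exact_mod_cast hn
    have h3 : (n : ℝ) ^ 2 ≤ (5 / 2 * m) ^ 2 := pow_le_pow_left₀ hn0.le hnm 2
    have h4 : 5 / 3 * (n : ℝ) ^ 2 ≤ 3 * (5 / 2 * (m : ℝ)) ^ 2 - 4 / 3 * (n : ℝ) ^ 2 := by linarith
    have h5 : (n - x) * (5 / 3 * (n : ℝ) ^ 2) ≤ n :=
      (mul_le_mul_of_nonneg_left h4 (by linarith)).trans h2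
    have h6 : (n - x) * n ≤ 3 / 5 := by
      have h7 : n * ((n - x) * n * (5 / 3)) ≤ n * 1 := by
        have e : n * ((n - x) * n * (5 / 3)) = (n - x) * (5 / 3 * (n : ℝ) ^ 2) := by ring
        rw [e]
        linarith
      have h8 := le_of_mul_le_mul_left h7 hn0
      linarith
    have h7 : 0 < (n - x) * n := mul_pos (by linarith) hn0
    have h8 := th_gt
    unfold ShE
    rw [abs_le]
    constructor <;> linarith

/-- at the first time `k1` with `T^[k1] m ≤ N` the orbit is in `InJ`, if there was no late climb,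
and it has shadowed the `T`-orbit of `m` up to this time -/
theorem inj_atE {m N l k1 : ℕ} (hm : 100 ≤ m) (hbig : 2 ^ (l + 1) * (N + 1) ≤ m) {c : ℝ}
    (hJ : InJ (3 * (5 / 2 * (m : ℝ)) ^ 2) (T^[l + 1] m) (cf^[l + 1] c))
    (hS : ∀ i ≤ l + 1, ShE (T^[i] m) (cf^[i] c))
    (h3 : T^[k1] m ≤ N) (h4 : ∀ i : ℕ, i < k1 → N < T^[i] m)
    (h2 : ¬ ∃ k : ℕ, l + 1 ≤ k ∧ (5 / 2 : ℝ) * (m : ℝ) < ((T^[k] m : ℕ) : ℝ) ∧ ∀ i ≤ k, N < T^[i] m) :
    InJ (3 * (5 / 2 * (m : ℝ)) ^ 2) (T^[k1] m) (cf^[k1] c) ∧ ∀ i ≤ k1, ShE (T^[i] m) (cf^[i] c) := by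
  have h5 : l + 1 < k1 := by
    by_contra h6
    push Not at h6
    have h7 := pow_T m k1
    have h8 : 2 ^ k1 * T^[k1] m ≤ 2 ^ (l + 1) * N :=
      Nat.mul_le_mul (Nat.pow_le_pow_right (by norm_num) h6) h3
    have h9 : 2 ^ (l + 1) * N < 2 ^ (l + 1) * (N + 1) :=
      Nat.mul_lt_mul_of_pos_left (Nat.lt_succ_self N) (by positivity)
    omega
  have hmN : (N : ℝ) ≤ m := by
    have h6 : N + 1 ≤ 2 ^ (l + 1) * (N + 1) := Nat.le_mul_of_pos_left _ (by positivity)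
    have h7 : N ≤ m := by omega
    exact_mod_cast h7
  have hm0 : (0 : ℝ) ≤ m := Nat.cast_nonneg m
  have hm1 : (100 : ℝ) ≤ m := by exact_mod_cast hm
  have h6 : ∀ i : ℕ, l + 1 ≤ i → i ≤ k1 → ((T^[i] m : ℕ) : ℝ) ≤ 5 / 2 * m := by
    intro i hi1 hi
    rcases Nat.lt_or_ge i k1 with h7 | h7
    · by_contra h8
      push Not at h8
      exact h2 ⟨i, hi1, h8, fun i' hi' => h4 i' (by omega)⟩
    · have h8 : i = k1 := by omega
      rw [h8]
      have h9 : ((T^[k1] m : ℕ) : ℝ) ≤ N := by exact_mod_cast h3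
      linarith
  have h7 : ∀ i : ℕ, l + 1 ≤ i → i ≤ k1 → InJ (3 * (5 / 2 * (m : ℝ)) ^ 2) (T^[i] m) (cf^[i] c) := by
    intro i hi
    induction i, hi using Nat.le_induction with
    | base => exact fun _ => hJ
    | succ i hi ih =>
      intro hik
      have h8 := ih (by omega)
      rw [Function.iterate_succ_apply', Function.iterate_succ_apply']
      apply stepJ (by linarith) (T_iter_pos' (by omega) i) (h6 i hi (by omega)) _ h8
      have := h6 (i + 1) (by omega) hik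
      rwa [Function.iterate_succ_apply'] at this
  refine ⟨h7 k1 h5.le le_rfl, fun i hi => ?_⟩
  rcases Nat.lt_or_ge (l + 1) i with h8 | h8
  · exact she_inJ (T_iter_pos' (by omega) i) (h6 i h8.le hi) (h7 i h8.le hi)
  · exact hS i h8

/-- after a time `k1` in `InJ`, as long as the `T`-orbit is at most `5/2 m` -/
theorem inj_afterE {m k1 : ℕ} (hm : 100 ≤ m) {c : ℝ}
    (hJ : InJ (3 * (5 / 2 * (m : ℝ)) ^ 2) (T^[k1] m) (cf^[k1] c))
    (hb : ∀ i : ℕ, k1 ≤ i → ((T^[i] m : ℕ) : ℝ) ≤ 5 / 2 * m) :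
    ∀ i : ℕ, k1 ≤ i → ShE (T^[i] m) (cf^[i] c) := by
  have hm1 : (100 : ℝ) ≤ m := by exact_mod_cast hm
  have h7 : ∀ i : ℕ, k1 ≤ i → InJ (3 * (5 / 2 * (m : ℝ)) ^ 2) (T^[i] m) (cf^[i] c) := by
    intro i hi
    induction i, hi using Nat.le_induction with
    | base => exact hJ
    | succ i hi ih =>
      rw [Function.iterate_succ_apply', Function.iterate_succ_apply']
      apply stepJ (by linarith) (T_iter_pos' (by omega) i) (hb i hi) _ ih
      have := hb (i + 1) (by omega)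
      rwa [Function.iterate_succ_apply'] at this
  exact fun i hi => she_inJ (T_iter_pos' (by omega) i) (hb i hi) (h7 i hi)

/-- the two cases, uniformly for the words of length `l` -/
theorem both_allE (l : ℕ) : ∃ B : ℕ, ∀ m : ℕ, B ≤ m → m % 2 = 0 → ∀ c : ℝ, IsCrit m c →
    (¬ Low (-(1 / 8)) (pw l (T m)) → InJ (3 * (5 / 2 * (m : ℝ)) ^ 2) (T^[l + 1] m) (cf^[l + 1] c) ∧
      ∀ i ≤ l + 1, ShE (T^[i] m) (cf^[i] c)) ∧
    (Low (-(1 / 8)) (pw l (T m)) → ∃ i ≤ l + 1, ¬ ShE (T^[i] m) (cf^[i] c)) := by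
  classical
  have h1 : ∀ w : List Bool, ∃ B : ℕ, ∀ m : ℕ, B ≤ m → m % 2 = 0 → pw w.length (T m) = w →
      ∀ c : ℝ, IsCrit m c →
      (¬ Low (-(1 / 8)) w → InJ (3 * (5 / 2 * (m : ℝ)) ^ 2) (T^[w.length + 1] m) (cf^[w.length + 1] c) ∧
        ∀ i ≤ w.length + 1, ShE (T^[i] m) (cf^[i] c)) ∧
      (Low (-(1 / 8)) w → ∃ i ≤ w.length + 1, ¬ ShE (T^[i] m) (cf^[i] c)) := by
    intro w
    by_cases h : Low (-(1 / 8)) w
    · obtain ⟨B, hB⟩ := low_finE w h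
      exact ⟨B, fun m hm he hw c hc => ⟨fun h' => absurd h h', fun _ => hB m hm he hw c hc⟩⟩
    · obtain ⟨B, hB⟩ := alive_finE w h
      exact ⟨B, fun m hm he hw c hc => ⟨fun _ => hB m hm he hw c hc, fun h' => absurd h' h⟩⟩
  choose Bw hBw using h1
  obtain ⟨B, hB⟩ := ((List.finite_length_eq Bool l).image Bw).bddAbove
  refine ⟨B, fun m hm he c hc => ?_⟩
  have hl := pw_length l (T m)
  have h2 : Bw (pw l (T m)) ≤ B := hB ⟨_, hl, rfl⟩
  have h3 := hBw (pw l (T m)) m (h2.trans hm) he (by rw [hl]) c hc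
  rwa [hl] at h3

end Pool.Agent.Lib.MP_a247fa_nt.CE
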