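import Pool.Agent.Lib.MP_a247fa_nt.CB.CaseS

/-! CE/Defs: definitions for the exact densities (critical orbits of the even integers). In the chain the scaled
deviation is `v = r / π²`. -/

set_option autoImplicit false

namespace Pool.Agent.Lib.MP_a247fa_nt.CE

open Pool.Agent.Lib.MP_a247fa_nt (T cf)
open Pool.Agent.Lib.MP_a247fa_nt.CB

/-- one step of the limit chain (`true`: odd, `false`: even) -/
noncomputable def stepR : Bool → ℝ → ℝ
  | true, r => 3 * r * (6 - r) / 8
  | false, r => r * (r + 2) / 8

/-- the chain started at `r` goes below `-6.705` along the word -/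
def Low : ℝ → List Bool → Prop
  | r, [] => r < -(1341 / 200)
  | r, b :: w => r < -(1341 / 200) ∨ Low (stepR b r) w

/-- the bound for the scaled deviation, `6.705 / π²` -/
noncomputable def th : ℝ := 1341 / 200 / Real.pi ^ 2

/-- the scaled deviation is at most `6.705 / π²` -/
def ShE (n : ℕ) (x : ℝ) : Prop := |(x - n) * n| ≤ th

/-- the critical orbit shadows the `T`-orbit of `m` until this has come down to `N` -/
def FolE (N m : ℕ) (c : ℝ) : Prop := ∃ k : ℕ, T^[k] m ≤ N ∧ ∀ i ≤ k, ShE (T^[i] m) (cf^[i] c)

/-- the number of the words of length `J` along which the chain started at `-1/8` goes below `-6.705` -/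
noncomputable def lowN (J : ℕ) : ℝ := ({w : List Bool | w.length = J ∧ Low (-(1 / 8)) w}.ncard : ℝ)

theorem th_pos : 0 < th := by
  unfold th
  positivity

theorem th_gt : 679 / 1000 < th := by
  have h := Pool.Agent.Lib.MP_a247fa_nt.pi_sq_lt
  have h0 : 0 < Real.pi ^ 2 := by positivity
  unfold th
  rw [lt_div_iff₀ h0]
  linarith

theorem th_lt : th < 7 / 10 := by
  have h := Pool.Agent.Lib.MP_a247fa_nt.pi_sq_gt
  have h0 : 0 < Real.pi ^ 2 := by positivity
  unfold th
  rw [div_lt_iff₀ h0]
  linarith

theorem stepV_div (b : Bool) (r : ℝ) : stepV b (r / Real.pi ^ 2) = stepR b r / Real.pi ^ 2 := by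
  have h0 : Real.pi ^ 2 ≠ 0 := by positivity
  cases b <;> simp only [stepV, stepR] <;> field_simp <;> ring

end Pool.Agent.Lib.MP_a247fa_nt.CE
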