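import Pool.Agent.Lib.MP_a247fa_nt.Crit.TRoot
import Pool.Agent.Lib.MP_a247fa_nt.CE.Defs
import Pool.Agent.Lib.MP_a247fa_nt.CB.Pot

/-! CountE: counting the words, the limit `p` of the proportion of the low words. -/

set_option autoImplicit false

namespace Pool.Agent.Lib.MP_a247fa_nt.CE

open Finset Pool.Agent.Lib.MP_e43fce_nt_nat
open Pool.Agent.Lib.MP_a247fa_nt (T)
open Pool.Agent.Lib.MP_a247fa_nt.Crit
open Pool.Agent.Lib.MP_a247fa_nt.CB

private theorem two_mul_T_even {m : ℕ} (h : m % 2 = 0) : 2 * T m = m := by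
  rw [T, if_pos h]
  omega

private theorem two_mul_T_odd {m : ℕ} (h : ¬ m % 2 = 0) : 2 * T m = 3 * m + 1 := by
  rw [T, if_neg h]
  omega

private theorem pw_modEq (J : ℕ) : ∀ m m' : ℕ, pw J m = pw J m' → m ≡ m' [MOD 2 ^ J] := by
  induction J with
  | zero =>
    intro m m' _
    rw [pow_zero]
    exact Nat.modEq_one
  | succ J ih =>
    intro m m' h
    simp only [pw, List.cons.injEq] at h
    obtain ⟨h1, h2⟩ := h
    have h3 := Nat.ModEq.mul_left' 2 (ih _ _ h2)
    have hp : m % 2 = m' % 2 := by
      rcases Nat.mod_two_eq_zero_or_one m with h | h <;> rcases Nat.mod_two_eq_zero_or_one m' with h' | h' <;>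
        simp_all
    rw [pow_succ, mul_comm]
    by_cases hm : m % 2 = 0
    · rwa [two_mul_T_even hm, two_mul_T_even (hp ▸ hm)] at h3
    · rw [two_mul_T_odd hm, two_mul_T_odd (hp ▸ hm)] at h3
      have h4 : 3 * m ≡ 3 * m' [MOD 2 * 2 ^ J] := Nat.ModEq.add_right_cancel' 1 h3
      refine Nat.ModEq.cancel_left_of_coprime ?_ h4
      have h5 : Nat.Coprime (2 ^ (J + 1)) 3 := Nat.Coprime.pow_left _ (by norm_num)
      rwa [pow_succ, mul_comm] at h5

/-- all words of length `J` -/
private def Wd : ℕ → Finset (List Bool)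
  | 0 => {[]}
  | J + 1 => (Wd J).image (List.cons true) ∪ (Wd J).image (List.cons false)

private theorem pw_mem (J : ℕ) : ∀ m : ℕ, pw J m ∈ Wd J := by
  induction J with
  | zero => intro m; simp [pw, Wd]
  | succ J ih =>
    intro m
    simp only [pw, Wd, Finset.mem_union, Finset.mem_image]
    cases h : (m % 2 == 1)
    · exact Or.inr ⟨_, ih _, rfl⟩
    · exact Or.inl ⟨_, ih _, rfl⟩

open Classical in
private theorem card_filter_Wd (J : ℕ) (P : List Bool → Prop) :
    ((Wd (J + 1)).filter P).card = ((Wd J).filter fun w => P (true :: w)).card +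
      ((Wd J).filter fun w => P (false :: w)).card := by
  have hinj : ∀ b : Bool, Function.Injective (List.cons b) := fun b x y h => (List.cons.inj h).2
  rw [Wd, Finset.filter_union, Finset.card_union_of_disjoint, Finset.filter_image, Finset.filter_image,
    Finset.card_image_of_injective _ (hinj true), Finset.card_image_of_injective _ (hinj false)]
  rw [Finset.disjoint_left]
  intro x hx hy
  rw [Finset.mem_filter, Finset.mem_image] at hx hy
  obtain ⟨⟨a, -, rfl⟩, -⟩ := hx
  obtain ⟨⟨b, -, hb⟩, -⟩ := hy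
  exact absurd (List.cons.inj hb).1 (by decide)

private theorem card_Wd (J : ℕ) : (Wd J).card = 2 ^ J := by
  induction J with
  | zero => simp [Wd]
  | succ J ih =>
    have h := card_filter_Wd J fun _ => True
    simp only [Finset.filter_true] at h
    rw [h, ih, pow_succ, mul_two]

private theorem mem_Wd (J : ℕ) : ∀ w : List Bool, w ∈ Wd J ↔ w.length = J := by
  induction J with
  | zero => intro w; simp [Wd]
  | succ J ih =>
    intro w
    simp only [Wd, Finset.mem_union, Finset.mem_image]
    constructor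
    · rintro (⟨a, ha, rfl⟩ | ⟨a, ha, rfl⟩) <;> simp [(ih a).1 ha]
    · intro h
      rcases w with _ | ⟨b, w⟩
      · simp at h
      · have h1 : w ∈ Wd J := (ih w).2 (by simpa using h)
        cases b
        · exact Or.inr ⟨w, h1, rfl⟩
        · exact Or.inl ⟨w, h1, rfl⟩

open Classical in
private theorem card_words (J : ℕ) (P : List Bool → Prop) :
    (((Wd J).filter P).card : ℝ) = ({w : List Bool | w.length = J ∧ P w}.ncard : ℝ) := by
  rw [← Set.ncard_coe_finset]
  congr 2
  ext w
  simp only [Finset.coe_filter, Set.mem_ofPred_eq, mem_Wd]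

theorem words_compl (J : ℕ) (P : List Bool → Prop) :
    ({w : List Bool | w.length = J ∧ P w}.ncard : ℝ) + ({w : List Bool | w.length = J ∧ ¬ P w}.ncard : ℝ) =
      2 ^ J := by
  classical
  rw [← card_words, ← card_words]
  have h := Finset.card_filter_add_card_filter_not (s := Wd J) P
  rw [card_Wd] at h
  have h2 : (((Wd J).filter P).card : ℝ) + (((Wd J).filter fun w => ¬ P w).card : ℝ) = 2 ^ J := by
    have h3 : ((Wd J).filter P).card + ((Wd J).filter fun w => ¬ P w).card = 2 ^ J := by
      rw [← h]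
    exact_mod_cast h3
  convert h2

theorem words_count (J : ℕ) (P : List Bool → Prop) (X : ℕ) (E : Set ℕ) (K : ℝ)
    (hK : ∀ r : ℕ, cnt {m : ℕ | m % 2 ^ (J + 1) = r % 2 ^ (J + 1) ∧ m ∈ E} X ≤ K) :
    cnt {m : ℕ | m % 2 = 0 ∧ P (pw J (T m)) ∧ m ∈ E} X ≤ ({w : List Bool | w.length = J ∧ P w}.ncard : ℝ) * K := by
  classical
  rw [← card_words J P, cnt]
  have hset : ({m : ℕ | m % 2 = 0 ∧ P (pw J (T m)) ∧ m ∈ E} ∩ Set.Icc 1 X) =
      (((Finset.Icc 1 X).filter fun m => m % 2 = 0 ∧ P (pw J (T m)) ∧ m ∈ E : Finset ℕ) : Set ℕ) := by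
    ext m
    simp only [Set.mem_inter_iff, Set.mem_ofPred_eq, Set.mem_Icc, Finset.coe_filter, Finset.mem_Icc]
    tauto
  rw [hset, Set.ncard_coe_finset]
  have hsub : ((Finset.Icc 1 X).filter fun m => m % 2 = 0 ∧ P (pw J (T m)) ∧ m ∈ E) ⊆
      ((Wd J).filter fun w => P w).biUnion
        fun w => (Finset.Icc 1 X).filter fun m => m % 2 = 0 ∧ pw J (T m) = w ∧ m ∈ E := by
    intro m hm
    rw [Finset.mem_filter] at hm
    rw [Finset.mem_biUnion]
    exact ⟨pw J (T m), Finset.mem_filter.2 ⟨pw_mem J _, hm.2.2.1⟩,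
      Finset.mem_filter.2 ⟨hm.1, hm.2.1, rfl, hm.2.2.2⟩⟩
  have h1 : ∀ w, (((Finset.Icc 1 X).filter fun m => m % 2 = 0 ∧ pw J (T m) = w ∧ m ∈ E).card : ℝ) ≤ K := by
    intro w
    rcases Finset.eq_empty_or_nonempty
      ((Finset.Icc 1 X).filter fun m => m % 2 = 0 ∧ pw J (T m) = w ∧ m ∈ E) with h0 | ⟨r, hr⟩
    · rw [h0, Finset.card_empty, Nat.cast_zero]
      refine le_trans ?_ (hK 0)
      rw [cnt]
      exact Nat.cast_nonneg _
    · refine le_trans ?_ (hK r)
      rw [cnt]
      obtain ⟨-, h3', h4', -⟩ := Finset.mem_filter.1 hr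
      rw [← Set.ncard_coe_finset]
      have hfin : ({m : ℕ | m % 2 ^ (J + 1) = r % 2 ^ (J + 1) ∧ m ∈ E} ∩ Set.Icc 1 X).Finite :=
        (Set.finite_Icc 1 X).subset Set.inter_subset_right
      have hle := Set.ncard_le_ncard (s := (((Finset.Icc 1 X).filter fun m =>
        m % 2 = 0 ∧ pw J (T m) = w ∧ m ∈ E : Finset ℕ) : Set ℕ)) (t := {m : ℕ | m % 2 ^ (J + 1) =
          r % 2 ^ (J + 1) ∧ m ∈ E} ∩ Set.Icc 1 X) (by
        intro m hm
        rw [Finset.mem_coe, Finset.mem_filter] at hm
        obtain ⟨hm1, h3, h4, h6⟩ := hm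
        have h5 := Nat.ModEq.mul_left' 2 (pw_modEq J _ _ (h4.trans h4'.symm))
        rw [two_mul_T_even h3, two_mul_T_even h3'] at h5
        refine ⟨⟨?_, h6⟩, Set.mem_Icc.2 (Finset.mem_Icc.1 hm1)⟩
        have h7 : m % (2 * 2 ^ J) = r % (2 * 2 ^ J) := h5
        rwa [pow_succ, mul_comm]) hfin
      exact_mod_cast hle
  calc (((Finset.Icc 1 X).filter fun m => m % 2 = 0 ∧ P (pw J (T m)) ∧ m ∈ E).card : ℝ)
      ≤ ((((Wd J).filter fun w => P w).biUnion
        fun w => (Finset.Icc 1 X).filter fun m => m % 2 = 0 ∧ pw J (T m) = w ∧ m ∈ E).card : ℝ) := by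
        exact_mod_cast Finset.card_le_card hsub
    _ ≤ ∑ w ∈ (Wd J).filter fun w => P w,
        (((Finset.Icc 1 X).filter fun m => m % 2 = 0 ∧ pw J (T m) = w ∧ m ∈ E).card : ℝ) := by
        exact_mod_cast Finset.card_biUnion_le
    _ ≤ ∑ w ∈ (Wd J).filter fun w => P w, K :=
        Finset.sum_le_sum fun w _ => h1 w
    _ = (((Wd J).filter fun w => P w).card : ℝ) * K := by
        rw [Finset.sum_const, nsmul_eq_mul]


/-! ## the low words -/

private theorem not_low (w : List Bool) : ∀ r : ℝ, 0 ≤ r → r ≤ 6 → ¬ Low r w := by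
  induction w with
  | nil =>
    intro r h0 _ h
    simp only [Low] at h
    linarith
  | cons b w ih =>
    intro r h0 h6 h
    rcases h with h | h
    · linarith
    · refine ih (stepR b r) ?_ ?_ h
      · cases b <;> simp only [stepR]
        · positivity
        · have : 0 ≤ 6 - r := by linarith
          positivity
      · cases b <;> simp only [stepR]
        · nlinarith
        · nlinarith [sq_nonneg (r - 3)]

private theorem nD_nonneg (J : ℕ) : ∀ v : ℝ, 0 ≤ nD J v := by
  induction J with
  | zero =>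
    intro v
    unfold nD
    split_ifs <;> norm_num
  | succ J ih =>
    intro v
    unfold nD
    split_ifs
    · positivity
    · exact add_nonneg (ih _) (ih _)
    · exact le_rfl

open Classical in
private theorem low_le (J : ℕ) : ∀ r : ℝ, r ≤ 6 →
    (((Wd J).filter fun w => Low r w).card : ℝ) ≤ nD J (r / Real.pi ^ 2) := by
  have hpi : 0 < Real.pi ^ 2 := by positivity
  have hlt := Pool.Agent.Lib.MP_a247fa_nt.pi_sq_lt
  have key : ∀ r : ℝ, r < -(1341 / 200) → r / Real.pi ^ 2 < -(679 / 1000) := by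
    intro r hr
    rw [div_lt_iff₀ hpi]
    linarith
  induction J with
  | zero =>
    intro r _
    by_cases hr : r < -(1341 / 200)
    · rw [nD, if_pos (key r hr)]
      have h1 : ((Wd 0).filter fun w => Low r w).card ≤ (Wd 0).card := Finset.card_filter_le _ _
      rw [card_Wd] at h1
      exact_mod_cast h1
    · have h1 : ((Wd 0).filter fun w => Low r w) = ∅ := by
        rw [Finset.filter_eq_empty_iff]
        intro w hw
        simp only [Wd, Finset.mem_singleton] at hw
        subst hw
        exact hr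
      rw [h1, Finset.card_empty, Nat.cast_zero]
      exact nD_nonneg _ _
  | succ J ih =>
    intro r h6
    have htot : (((Wd (J + 1)).filter fun w => Low r w).card : ℝ) ≤ 2 ^ (J + 1) := by
      have h1 : ((Wd (J + 1)).filter fun w => Low r w).card ≤ (Wd (J + 1)).card := Finset.card_filter_le _ _
      rw [card_Wd] at h1
      exact_mod_cast h1
    by_cases hv : r / Real.pi ^ 2 < -(679 / 1000)
    · rw [nD, if_pos hv]
      exact htot
    · have hr : ¬ r < -(1341 / 200) := fun h => hv (key r h)
      by_cases h0 : r < 0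
      · have hv0 : r / Real.pi ^ 2 < 0 := div_neg_of_neg_of_pos h0 hpi
        rw [nD, if_neg hv, if_pos hv0, card_filter_Wd, stepV_div, stepV_div]
        push_cast
        have h2 : ∀ b : Bool, ((Wd J).filter fun w => Low r (b :: w)) = (Wd J).filter fun w => Low (stepR b r) w := by
          intro b
          refine Finset.filter_congr fun w _ => ?_
          simp [Low, hr]
        rw [h2, h2]
        rw [not_lt] at hr
        refine add_le_add (ih _ ?_) (ih _ ?_)
        · simp only [stepR]
          nlinarith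
        · simp only [stepR]
          nlinarith
      · have h1 : ((Wd (J + 1)).filter fun w => Low r w) = ∅ := by
          rw [Finset.filter_eq_empty_iff]
          intro w _
          exact not_low w r (not_lt.1 h0) h6
        rw [h1, Finset.card_empty, Nat.cast_zero]
        exact nD_nonneg _ _

theorem lowN_le (J : ℕ) : lowN (J + 7) ≤ 199 / 2000 * 2 ^ (J + 7) := by
  classical
  have h := low_le (J + 7) (-(1 / 8)) (by norm_num)
  have e : -(1 / 8) / Real.pi ^ 2 = -(1 / (8 * Real.pi ^ 2)) := by
    have hpi : Real.pi ^ 2 ≠ 0 := by positivity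
    field_simp
  rw [e, card_words] at h
  exact h.trans (nD_start J)

private theorem low_append (w : List Bool) (b : Bool) : ∀ r : ℝ, Low r w → Low r (w ++ [b]) := by
  induction w with
  | nil =>
    intro r h
    exact Or.inl h
  | cons a w ih =>
    intro r h
    rcases h with h | h
    · exact Or.inl h
    · exact Or.inr (ih _ h)

theorem lowN_succ (J : ℕ) : 2 * lowN J ≤ lowN (J + 1) := by
  classical
  unfold lowN
  rw [← card_words, ← card_words]
  have h1 : ((((Wd J).filter fun w => Low (-(1 / 8)) w) ×ˢ (Finset.univ : Finset Bool)).card) ≤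
      ((Wd (J + 1)).filter fun w => Low (-(1 / 8)) w).card := by
    refine Finset.card_le_card_of_injOn (fun q => q.1 ++ [q.2]) ?_ ?_
    · rintro ⟨w, b⟩ h
      simp only [Finset.coe_product, Finset.coe_filter, Set.mem_prod, Set.mem_ofPred_eq, mem_Wd] at h
      simp only [Finset.coe_filter, Set.mem_ofPred_eq, mem_Wd, List.length_append, List.length_singleton]
      exact ⟨by rw [h.1.1], low_append w b _ h.1.2⟩
    · rintro ⟨w, b⟩ _ ⟨w', b'⟩ _ h
      have h2 := List.append_inj' h rfl
      simp only [List.cons.injEq, and_true] at h2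
      exact Prod.ext h2.1 h2.2
  rw [Finset.card_product, Finset.card_univ, Fintype.card_bool] at h1
  have h2 : (((Wd J).filter fun w => Low (-(1 / 8)) w).card * 2 : ℝ) ≤
      (((Wd (J + 1)).filter fun w => Low (-(1 / 8)) w).card : ℝ) := by exact_mod_cast h1
  linarith

/-! ## a lower bound for `p` by counting the low words of length `11` -/

/-- the number of the low words of length `J` for `r = a / 2^k` (not more) -/
def cL : ℕ → ℤ → ℕ → ℕ
  | 0, a, k => if 200 * a < -1341 * 2 ^ k then 1 else 0
  | J + 1, a, k => if 200 * a < -1341 * 2 ^ k then 2 ^ (J + 1) else if 0 ≤ a then 0 else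
      cL J (3 * a * (6 * 2 ^ k - a)) (2 * k + 3) + cL J (a * (a + 2 * 2 ^ k)) (2 * k + 3)

private theorem low_iff (a : ℤ) (k : ℕ) : 200 * a < -1341 * 2 ^ k ↔ (a : ℝ) / 2 ^ k < -(1341 / 200) := by
  have h2 : (0 : ℝ) < 2 ^ k := by positivity
  rw [div_lt_iff₀ h2]
  constructor
  · intro h
    have h3 : (200 : ℝ) * a < -1341 * 2 ^ k := by exact_mod_cast h
    linarith
  · intro h
    have h3 : (200 : ℝ) * a < -1341 * 2 ^ k := by linarith
    exact_mod_cast h3

open Classical in
private theorem cL_le (J : ℕ) : ∀ (a : ℤ) (k : ℕ),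
    cL J a k ≤ ((Wd J).filter fun w => Low ((a : ℝ) / 2 ^ k) w).card := by
  induction J with
  | zero =>
    intro a k
    by_cases h : 200 * a < -1341 * 2 ^ k
    · rw [cL, if_pos h]
      have h1 : ((Wd 0).filter fun w => Low ((a : ℝ) / 2 ^ k) w) = Wd 0 := by
        rw [Finset.filter_eq_self]
        intro w hw
        simp only [Wd, Finset.mem_singleton] at hw
        subst hw
        exact (low_iff a k).1 h
      rw [h1, card_Wd]
      norm_num
    · rw [cL, if_neg h]
      exact Nat.zero_le _
  | succ J ih =>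
    intro a k
    by_cases h : 200 * a < -1341 * 2 ^ k
    · rw [cL, if_pos h]
      have h1 : ((Wd (J + 1)).filter fun w => Low ((a : ℝ) / 2 ^ k) w) = Wd (J + 1) := by
        rw [Finset.filter_eq_self]
        intro w hw
        rcases w with _ | ⟨b, w⟩
        · rw [mem_Wd] at hw
          simp at hw
        · exact Or.inl ((low_iff a k).1 h)
      rw [h1, card_Wd]
    · rw [cL, if_neg h]
      by_cases h0 : 0 ≤ a
      · rw [if_pos h0]
        exact Nat.zero_le _
      · rw [if_neg h0, card_filter_Wd]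
        have hr : ¬ (a : ℝ) / 2 ^ k < -(1341 / 200) := fun h' => h ((low_iff a k).2 h')
        have h2 : ∀ b : Bool, ((Wd J).filter fun w => Low ((a : ℝ) / 2 ^ k) (b :: w)) =
            (Wd J).filter fun w => Low (stepR b ((a : ℝ) / 2 ^ k)) w := by
          intro b
          refine Finset.filter_congr fun w _ => ?_
          simp [Low, hr]
        have h3 : stepR true ((a : ℝ) / 2 ^ k) = ((3 * a * (6 * 2 ^ k - a) : ℤ) : ℝ) / 2 ^ (2 * k + 3) := by
          simp only [stepR]
          push_cast
          rw [pow_add, pow_mul']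
          field_simp
          ring
        have h4 : stepR false ((a : ℝ) / 2 ^ k) = ((a * (a + 2 * 2 ^ k) : ℤ) : ℝ) / 2 ^ (2 * k + 3) := by
          simp only [stepR]
          push_cast
          rw [pow_add, pow_mul']
          field_simp
          ring
        rw [h2, h2, h3, h4]
        exact add_le_add (ih _ _) (ih _ _)

theorem cL_eleven : 103 ≤ cL 11 (-1) 3 := by decide +kernel

theorem lowN_eleven : 103 ≤ lowN 11 := by
  classical
  have h := (cL_eleven).trans (cL_le 11 (-1) 3)
  unfold lowN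
  rw [← card_words]
  have e : (((-1 : ℤ) : ℝ) / 2 ^ 3) = -(1 / 8) := by norm_num
  rw [e] at h
  exact_mod_cast h

/-- the limit of the proportion of the low words -/
theorem p_exists : ∃ p : ℝ, 1 / 20 ≤ p ∧ p ≤ 199 / 2000 ∧
    Filter.Tendsto (fun J : ℕ => lowN J / 2 ^ J) Filter.atTop (nhds p) ∧ ∀ J : ℕ, lowN J ≤ p * 2 ^ J := by
  set f : ℕ → ℝ := fun J => lowN J / 2 ^ J with hf
  have hmono : Monotone f := by
    refine monotone_nat_of_le_succ fun J => ?_
    simp only [hf]
    rw [div_le_div_iff₀ (by positivity) (by positivity), pow_succ]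
    have h1 := lowN_succ J
    have h2 : (0 : ℝ) < 2 ^ J := by positivity
    nlinarith
  have hb : ∀ J, f J ≤ 199 / 2000 := by
    intro J
    refine (hmono (Nat.le_add_right J 7)).trans ?_
    simp only [hf]
    rw [div_le_iff₀ (by positivity)]
    exact lowN_le J
  have hbdd : BddAbove (Set.range f) := ⟨199 / 2000, by rintro _ ⟨J, rfl⟩; exact hb J⟩
  refine ⟨⨆ J, f J, ?_, ciSup_le hb, tendsto_atTop_ciSup hmono hbdd, fun J => ?_⟩
  · refine le_trans ?_ (le_ciSup hbdd 11)
    simp only [hf]
    rw [le_div_iff₀ (by positivity)]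
    have := lowN_eleven
    linarith
  · have h1 := le_ciSup hbdd J
    simp only [hf] at h1
    rwa [div_le_iff₀ (by positivity)] at h1

end Pool.Agent.Lib.MP_a247fa_nt.CE
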