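import Pool.Agent.Lib.MP_a247fa_nt.CE.CaseE
import Pool.Agent.Lib.MP_a247fa_nt.CE.CountE
import Pool.Agent.Lib.MP_a247fa_nt.Crit.PS
import Pool.Agent.Lib.MP_a247fa_nt.CB.LateEven
import Pool.Agent.Lib.MP_a247fa_nt.CB.Reach

/-! MainE: the exact densities. -/

set_option autoImplicit false

namespace Pool.Agent.Lib.MP_a247fa_nt.CE

open Finset Pool.Agent.Lib.MP_e43fce_nt_nat
open Pool.Agent.Lib.MP_a247fa_nt (T cf dcf T_pos trapI iter_mem_trap)
open Pool.Agent.Lib.MP_a247fa_nt.Crit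
open Pool.Agent.Lib.MP_a247fa_nt.CB

private theorem class_cnt (M : ℕ) (r X : ℕ) :
    cnt {m : ℕ | m % M = r % M ∧ m ∈ (Set.univ : Set ℕ)} X ≤ (X : ℝ) / M + 1 := by
  classical
  have hset : ({m : ℕ | m % M = r % M ∧ m ∈ (Set.univ : Set ℕ)} ∩ Set.Icc 1 X) =
      (((Finset.Icc 1 X).filter fun m => m % M = r % M : Finset ℕ) : Set ℕ) := by
    ext m
    simp only [Set.mem_inter_iff, Set.mem_ofPred_eq, Set.mem_Icc, Finset.coe_filter, Finset.mem_Icc, Set.mem_univ,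
      and_true]
    tauto
  rw [cnt, hset, Set.ncard_coe_finset]
  have h1 : ((Finset.Icc 1 X).filter fun m => m % M = r % M).card ≤ (Finset.range (X / M + 1)).card := by
    refine Finset.card_le_card_of_injOn (fun m => m / M) ?_ ?_
    · intro m hm
      simp only [Finset.coe_filter, Finset.mem_Icc, Set.mem_ofPred_eq] at hm
      have h2 : m / M ≤ X / M := Nat.div_le_div_right hm.1.2
      simp only [Finset.coe_range, Set.mem_Iio]
      omega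
    · intro m hm m' hm' he
      simp only [Finset.coe_filter, Finset.mem_Icc, Set.mem_ofPred_eq] at hm hm' he
      have h2 : m % M = m' % M := by rw [hm.2, hm'.2]
      rw [← Nat.div_add_mod m M, ← Nat.div_add_mod m' M, he, h2]
  rw [Finset.card_range] at h1
  have h2 : (((Finset.Icc 1 X).filter fun m => m % M = r % M).card : ℝ) ≤ ((X / M : ℕ) : ℝ) + 1 := by
    exact_mod_cast h1
  have h3 : ((X / M : ℕ) : ℝ) ≤ (X : ℝ) / M := Nat.cast_div_le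
  linarith

private theorem words_up (J : ℕ) (P : List Bool → Prop) (X : ℕ) :
    cnt {m : ℕ | m % 2 = 0 ∧ P (pw J (T m))} X ≤
      ({w : List Bool | w.length = J ∧ P w}.ncard : ℝ) * ((X : ℝ) / 2 ^ (J + 1) + 1) := by
  have h := words_count J P X Set.univ ((X : ℝ) / 2 ^ (J + 1) + 1) (fun r => by
    have := class_cnt (2 ^ (J + 1)) r X
    push_cast at this
    exact this)
  have e : {m : ℕ | m % 2 = 0 ∧ P (pw J (T m)) ∧ m ∈ (Set.univ : Set ℕ)} =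
      {m : ℕ | m % 2 = 0 ∧ P (pw J (T m))} := by
    ext m
    simp
  rwa [e] at h

private theorem even_cnt (X : ℕ) : (X : ℝ) / 2 - 1 ≤ cnt {m : ℕ | m % 2 = 0} X := by
  have h1 := cnt_union_le {m : ℕ | m % 2 = 0} {m : ℕ | m % 2 = 1 % 2 ∧ m ∈ (Set.univ : Set ℕ)} X
  have h2 := class_cnt 2 1 X
  have h3 : cnt ({m : ℕ | m % 2 = 0} ∪ {m : ℕ | m % 2 = 1 % 2 ∧ m ∈ (Set.univ : Set ℕ)}) X = X := by
    unfold cnt
    have e : ({m : ℕ | m % 2 = 0} ∪ {m : ℕ | m % 2 = 1 % 2 ∧ m ∈ (Set.univ : Set ℕ)}) ∩ Set.Icc 1 X =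
        Set.Icc 1 X := by
      ext m
      simp only [Set.mem_inter_iff, Set.mem_union, Set.mem_ofPred_eq, Set.mem_univ, and_true]
      constructor
      · exact fun h => h.2
      · exact fun h => ⟨by omega, h⟩
    rw [e, ← Finset.coe_Icc, Set.ncard_coe_finset]
    simp
  push_cast at h2
  linarith

private theorem low_down (J : ℕ) (X : ℕ) :
    lowN J * (X / 2 ^ (J + 1)) - (2 ^ J + 1) ≤ cnt {m : ℕ | m % 2 = 0 ∧ Low (-(1 / 8)) (pw J (T m))} X := by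
  have h1 := words_up J (fun w => ¬ Low (-(1 / 8)) w) X
  have h2 := words_compl J (fun w => Low (-(1 / 8)) w)
  have h3 := even_cnt X
  have h4 := cnt_union_le {m : ℕ | m % 2 = 0 ∧ Low (-(1 / 8)) (pw J (T m))}
    {m : ℕ | m % 2 = 0 ∧ ¬ Low (-(1 / 8)) (pw J (T m))} X
  have h5 : cnt {m : ℕ | m % 2 = 0} X ≤ cnt ({m : ℕ | m % 2 = 0 ∧ Low (-(1 / 8)) (pw J (T m))} ∪
    {m : ℕ | m % 2 = 0 ∧ ¬ Low (-(1 / 8)) (pw J (T m))}) X := by
    apply cnt_mono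
    intro m _ _ hm
    by_cases h : Low (-(1 / 8)) (pw J (T m))
    · exact Or.inl ⟨hm, h⟩
    · exact Or.inr ⟨hm, h⟩
  have h6 : ({w : List Bool | w.length = J ∧ ¬ Low (-(1 / 8)) w}.ncard : ℝ) = 2 ^ J - lowN J := by
    unfold lowN
    linarith
  rw [h6] at h1
  have h7 : (2 ^ J - lowN J) * ((X : ℝ) / 2 ^ (J + 1) + 1) =
      X / 2 - lowN J * (X / 2 ^ (J + 1)) + (2 ^ J - lowN J) := by
    rw [pow_succ]
    field_simp
  rw [h7] at h1
  have h8 : 0 ≤ lowN J := Nat.cast_nonneg _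
  linarith

/-! ## the even integers whose critical orbit does not shadow -/

private theorem case_E {m N l : ℕ} (hm : 100 ≤ m) (hbig : 2 ^ (l + 1) * (N + 1) ≤ m) {c : ℝ}
    (hJ : InJ (3 * (5 / 2 * (m : ℝ)) ^ 2) (T^[l + 1] m) (cf^[l + 1] c))
    (hS : ∀ i ≤ l + 1, ShE (T^[i] m) (cf^[i] c))
    (h : ¬ FolE N m c) :
    (∀ k : ℕ, N < T^[k] m) ∨
      (∃ k : ℕ, l + 1 ≤ k ∧ (5 / 2 : ℝ) * (m : ℝ) < ((T^[k] m : ℕ) : ℝ) ∧ ∀ i ≤ k, N < T^[i] m) := by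
  classical
  by_contra hcon
  rw [not_or] at hcon
  obtain ⟨h1, h2⟩ := hcon
  push Not at h1
  obtain ⟨k0, hk0⟩ := h1
  have hex : ∃ k : ℕ, T^[k] m ≤ N := ⟨k0, hk0⟩
  set k1 := Nat.find hex with hk1
  have h3 : T^[k1] m ≤ N := Nat.find_spec hex
  have h4 : ∀ i : ℕ, i < k1 → N < T^[i] m := by
    intro i hi
    have := Nat.find_min hex hi
    omega
  exact h ⟨k1, h3, (inj_atE hm hbig hJ hS h3 h4 h2).2⟩

theorem even_upE {p : ℝ} (hp : ∀ J : ℕ, lowN J ≤ p * 2 ^ J) {e : ℝ} (he : e < 1 / 20) :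
    ∃ C : ℝ, 0 < C ∧ ∀ N : ℕ, 1 ≤ N → ∀ ε : ℝ, 0 < ε → ∃ X0 : ℕ, ∀ X : ℕ, X0 ≤ X →
    cnt {m : ℕ | m % 2 = 0 ∧ ∃ c : ℝ, IsCrit m c ∧ ¬ FolE N m c} X
      ≤ (p / 2 + C * (N : ℝ) ^ (-e) + ε) * X := by
  obtain ⟨C1, hC1, h1⟩ := stay_ps he
  obtain ⟨C2, hC2, h2⟩ := late_even he
  refine ⟨C1 + C2, by positivity, fun N hN ε hε => ?_⟩
  obtain ⟨J, h3⟩ := h2 (ε / 2) (by positivity)
  obtain ⟨X1, h3⟩ := h3 N hN
  obtain ⟨B1, hB1⟩ := both_allE J
  set B : ℕ := max (max 100 (2 ^ (J + 1) * (N + 1))) B1 with hB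
  obtain ⟨X2, hX2⟩ := exists_nat_ge (((B : ℝ) + lowN J) / (ε / 2))
  refine ⟨max (max X1 X2) 1, fun X hX => ?_⟩
  have hXa : X1 ≤ X := le_trans (le_trans (le_max_left _ _) (le_max_left _ _)) hX
  have hXb : X2 ≤ X := le_trans (le_trans (le_max_right _ _) (le_max_left _ _)) hX
  have hXc : 1 ≤ X := le_trans (le_max_right _ _) hX
  set S1 : Set ℕ := {m : ℕ | ∀ k : ℕ, N < T^[k] m} with hS1
  set S2 : Set ℕ := {m : ℕ | m % 2 = 0 ∧ ∃ k : ℕ, J ≤ k ∧ (5 / 2 : ℝ) * (m : ℝ) < ((T^[k] m : ℕ) : ℝ) ∧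
        ∀ i ≤ k, N < T^[i] m} with hS2
  set S3 : Set ℕ := {m : ℕ | m % 2 = 0 ∧ Low (-(1 / 8)) (pw J (T m))} with hS3
  have h4 := cnt_almost (S := {m : ℕ | m % 2 = 0 ∧ ∃ c : ℝ, IsCrit m c ∧ ¬ FolE N m c})
    (S' := (S1 ∪ S2) ∪ S3) (B := B) (by
      rintro m hm ⟨h5, c, hc, h6⟩
      by_cases hd : Low (-(1 / 8)) (pw J (T m))
      · exact Or.inr ⟨h5, hd⟩
      · left
        have h7 := (hB1 m ((le_max_right _ _).trans hm) h5 c hc).1 hd
        rcases case_E (N := N) (l := J) (((le_max_left _ _).trans (le_max_left _ _)).trans hm)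
          (((le_max_right _ _).trans (le_max_left _ _)).trans hm) h7.1 h7.2 h6 with h8 | ⟨k, hk, h8⟩
        · exact Or.inl h8
        · exact Or.inr ⟨h5, k, by omega, h8⟩) X
  have h5 := cnt_union_le (S1 ∪ S2) S3 X
  have h6 := cnt_union_le S1 S2 X
  have h7 := h1 N X hN hXc
  have h8 := h3 X hXa
  have h9 := words_up J (fun w => Low (-(1 / 8)) w) X
  have h10 : ({w : List Bool | w.length = J ∧ Low (-(1 / 8)) w}.ncard : ℝ) * ((X : ℝ) / 2 ^ (J + 1) + 1) ≤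
      p / 2 * X + lowN J := by
    have h11 : ({w : List Bool | w.length = J ∧ Low (-(1 / 8)) w}.ncard : ℝ) = lowN J := rfl
    rw [h11, mul_add, mul_one]
    have h12 : lowN J * ((X : ℝ) / 2 ^ (J + 1)) ≤ p * 2 ^ J * ((X : ℝ) / 2 ^ (J + 1)) :=
      mul_le_mul_of_nonneg_right (hp J) (by positivity)
    have h13 : p * 2 ^ J * ((X : ℝ) / 2 ^ (J + 1)) = p / 2 * X := by
      rw [pow_succ]
      field_simp
    linarith
  have h11 : (B : ℝ) + lowN J ≤ ε / 2 * X := by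
    have h12 : ((B : ℝ) + lowN J) / (ε / 2) ≤ X := hX2.trans (by exact_mod_cast hXb)
    rw [div_le_iff₀ (by positivity)] at h12
    linarith
  have h12 : cnt {m : ℕ | m % 2 = 0 ∧ ∃ c : ℝ, IsCrit m c ∧ ¬ FolE N m c} X ≤
      (C1 * (N : ℝ) ^ (-e) * X + (ε / 2 + C2 * (N : ℝ) ^ (-e)) * X) + (p / 2 * X + lowN J) + B := by
    linarith
  refine h12.trans ?_
  have h13 : (p / 2 + (C1 + C2) * (N : ℝ) ^ (-e) + ε) * X =
      (C1 * (N : ℝ) ^ (-e) * X + (ε / 2 + C2 * (N : ℝ) ^ (-e)) * X) + p / 2 * X + ε / 2 * X := by ring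
  rw [h13]
  linarith

theorem even_downE {p : ℝ} (hp : Filter.Tendsto (fun J : ℕ => lowN J / 2 ^ J) Filter.atTop (nhds p)) (N : ℕ)
    {ε : ℝ} (hε : 0 < ε) : ∃ X0 : ℕ, ∀ X : ℕ, X0 ≤ X →
    (p / 2 - ε) * X ≤ cnt {m : ℕ | m % 2 = 0 ∧ ∃ c : ℝ, IsCrit m c ∧ ¬ FolE N m c} X := by
  obtain ⟨l, hl⟩ := (hp.eventually (lt_mem_nhds (show p - ε < p by linarith))).exists
  rw [lt_div_iff₀ (by positivity)] at hl
  obtain ⟨B1, hB1⟩ := both_allE l
  set B : ℕ := max (max 1 (2 ^ (l + 1) * (N + 1))) B1 with hB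
  obtain ⟨X2, hX2⟩ := exists_nat_ge (((B : ℝ) + (2 ^ l + 1)) / (ε / 2))
  refine ⟨X2, fun X hX => ?_⟩
  have h4 := cnt_almost (S := {m : ℕ | m % 2 = 0 ∧ Low (-(1 / 8)) (pw l (T m))})
    (S' := {m : ℕ | m % 2 = 0 ∧ ∃ c : ℝ, IsCrit m c ∧ ¬ FolE N m c}) (B := B) (by
      rintro m hm ⟨h5, h6⟩
      have hm1 : 1 ≤ m := ((le_max_left _ _).trans (le_max_left _ _)).trans hm
      have hbig : 2 ^ (l + 1) * (N + 1) ≤ m := ((le_max_right _ _).trans (le_max_left _ _)).trans hm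
      obtain ⟨c, hc, -⟩ := crit_unique m hm1
      refine ⟨h5, c, hc, ?_⟩
      obtain ⟨i, hi, h7⟩ := (hB1 m ((le_max_right _ _).trans hm) h5 c hc).2 h6
      rintro ⟨k, hk, h8⟩
      refine h7 (h8 i ?_)
      by_contra hlt
      push Not at hlt
      have h9 := pow_T m k
      have h10 : 2 ^ k * T^[k] m ≤ 2 ^ (l + 1) * N :=
        Nat.mul_le_mul (Nat.pow_le_pow_right (by norm_num) (by omega)) hk
      have h11 : 2 ^ (l + 1) * N < 2 ^ (l + 1) * (N + 1) :=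
        Nat.mul_lt_mul_of_pos_left (Nat.lt_succ_self N) (by positivity)
      omega) X
  have h5 := low_down l X
  have h6 : (p - ε) / 2 * X ≤ lowN l * ((X : ℝ) / 2 ^ (l + 1)) := by
    have h7 : (p - ε) * 2 ^ l * ((X : ℝ) / 2 ^ (l + 1)) ≤ lowN l * ((X : ℝ) / 2 ^ (l + 1)) :=
      mul_le_mul_of_nonneg_right hl.le (by positivity)
    have h8 : (p - ε) * 2 ^ l * ((X : ℝ) / 2 ^ (l + 1)) = (p - ε) / 2 * X := by
      rw [pow_succ]
      field_simp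
    linarith
  have h7 : (B : ℝ) + (2 ^ l + 1) ≤ ε / 2 * X := by
    have h8 : ((B : ℝ) + (2 ^ l + 1)) / (ε / 2) ≤ X := hX2.trans (by exact_mod_cast hX)
    rw [div_le_iff₀ (by positivity)] at h8
    linarith
  have h8 : (p / 2 - ε) * X = (p - ε) / 2 * X - ε / 2 * X := by ring
  rw [h8]
  linarith

theorem odd_folE {e : ℝ} (he : e < 1 / 20) : ∃ C : ℝ, 0 < C ∧ ∀ N X : ℕ, 1 ≤ N → 1 ≤ X →
    cnt {m : ℕ | m % 2 = 1 ∧ ∃ c : ℝ, IsCrit m c ∧ ¬ FolE N m c} X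
      ≤ C * (N : ℝ) ^ (-e) * X := by
  obtain ⟨C, hC, h⟩ := stay_ps he
  refine ⟨C, hC, fun N X hN hX => ?_⟩
  refine le_trans (cnt_mono ?_) (h N X hN hX)
  rintro m hm _ ⟨h1, c, hc, h2⟩ k
  by_contra h3
  push Not at h3
  exact h2 ⟨k, h3, fun i _ => she_trap (iter_mem_trap hm (isCrit_odd_trap h1 hc) i).2⟩

/-! ## the even integers whose critical orbit is attracted by `{1, 2}` and shadows for ever -/

private theorem reach_E {m : ℕ} (hm : 0 < m) {c : ℝ} (h1 : ToOne c) (h2 : ∀ k : ℕ, ShE (T^[k] m) (cf^[k] c)) :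
    ∃ k : ℕ, T^[k] m = 1 := by
  obtain ⟨j, hj⟩ := h1
  obtain ⟨k, hk⟩ := ((Metric.tendsto_nhds.1 hj) (1 / 100) (by norm_num)).exists
  refine ⟨2 * k + j, ?_⟩
  have h3 := h2 (2 * k + j)
  have h4 := T_iter_pos' hm (2 * k + j)
  rw [Real.dist_eq] at hk
  by_contra hne
  have h5 : 2 ≤ T^[2 * k + j] m := by omega
  have h6 : (2 : ℝ) ≤ ((T^[2 * k + j] m : ℕ) : ℝ) := by exact_mod_cast h5
  unfold ShE at h3
  set n : ℝ := ((T^[2 * k + j] m : ℕ) : ℝ) with hn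
  set x : ℝ := cf^[2 * k + j] c with hx
  have h7 := th_lt
  have h8 := (abs_lt.1 hk).2
  have h9 := (abs_le.1 h3).1
  have h10 : x - n < -(9 / 10) := by linarith
  nlinarith

private theorem rpow_small2 {C η : ℝ} (hη : 0 < η) : ∃ N : ℕ, 200 ≤ N ∧
    C * (N : ℝ) ^ (-(1 / 40) : ℝ) ≤ η := by
  have h1 : Filter.Tendsto (fun N : ℕ => C * (N : ℝ) ^ (-(1 / 40) : ℝ)) Filter.atTop (nhds 0) := by
    have h3 := (tendsto_rpow_neg_atTop (show (0 : ℝ) < 1 / 40 by norm_num)).comp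
      tendsto_natCast_atTop_atTop
    have h4 := h3.const_mul C
    simpa using h4
  have h5 := h1.eventually (ge_mem_nhds hη)
  obtain ⟨N, hN⟩ := (h5.and (Filter.eventually_ge_atTop 200)).exists
  exact ⟨N, hN.2, hN.1⟩

/-- the set of the theorem -/
def SE : Set ℕ := {m : ℕ | m % 2 = 0 ∧ ∃ c : ℝ, IsCrit m c ∧ ToOne c ∧ ∀ k : ℕ, ShE (T^[k] m) (cf^[k] c)}

theorem dens_lowE {p d : ℝ} (hp1 : p ≤ 1) (hp : ∀ J : ℕ, lowN J ≤ p * 2 ^ J)
    (hden : ∀ M : ℕ, 1 ≤ M → ∀ ε : ℝ, 0 < ε → ∃ X0 : ℕ, ∀ X : ℕ,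
    X0 ≤ X → ∀ r : ℕ, |cnt {n : ℕ | n % M = r % M ∧ ∃ k : ℕ, T^[k] n = 1} X - d * X / M| ≤ ε * X)
    (hd : 0 ≤ d) {ε : ℝ} (hε : 0 < ε) :
    ∃ X0 : ℕ, ∀ X : ℕ, X0 ≤ X → ((1 - p) * d / 2 - ε) * X ≤ cnt SE X := by
  classical
  obtain ⟨C2, hC2, h2⟩ := late_even (show (1 / 40 : ℝ) < 1 / 20 by norm_num)
  obtain ⟨N, hN, hN1⟩ := rpow_small2 (C := C2) (show 0 < ε / 5 by positivity)
  obtain ⟨J, h3⟩ := h2 (ε / 5) (by positivity)
  obtain ⟨X1, h3⟩ := h3 N (by omega)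
  obtain ⟨B1, hB1⟩ := both_allE J
  obtain ⟨B2', hB2⟩ := toOne_at hN
  obtain ⟨M, hM⟩ := orbit_bound N
  set B2 : ℕ := max B2' M with hB2d
  obtain ⟨X3, h4⟩ := hden 2 (by norm_num) (ε / 5) (by positivity)
  obtain ⟨X4, h5⟩ := hden (2 ^ (J + 1)) Nat.one_le_two_pow (ε / 5 / 2 ^ J) (by positivity)
  set B : ℕ := max (max 100 (2 ^ (J + 1) * (N + 1))) (max B1 B2) with hB
  obtain ⟨X2, hX2⟩ := exists_nat_ge ((B : ℝ) / (ε / 5))
  refine ⟨max (max X1 X2) (max X3 X4), fun X hX => ?_⟩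
  have hXa : X1 ≤ X := le_trans (le_trans (le_max_left _ _) (le_max_left _ _)) hX
  have hXb : X2 ≤ X := le_trans (le_trans (le_max_right _ _) (le_max_left _ _)) hX
  have hXc : X3 ≤ X := le_trans (le_trans (le_max_left _ _) (le_max_right _ _)) hX
  have hXd : X4 ≤ X := le_trans (le_trans (le_max_right _ _) (le_max_right _ _)) hX
  set E : Set ℕ := {n : ℕ | ∃ k : ℕ, T^[k] n = 1} with hE
  set S2 : Set ℕ := {m : ℕ | m % 2 = 0 ∧ ∃ k : ℕ, J ≤ k ∧ (5 / 2 : ℝ) * (m : ℝ) < ((T^[k] m : ℕ) : ℝ) ∧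
        ∀ i ≤ k, N < T^[i] m} with hS2
  set S3 : Set ℕ := {m : ℕ | m % 2 = 0 ∧ Low (-(1 / 8)) (pw J (T m)) ∧ m ∈ E} with hS3
  have h6 := cnt_almost (S := {n : ℕ | n % 2 = 0 % 2 ∧ ∃ k : ℕ, T^[k] n = 1})
    (S' := (SE ∪ S2) ∪ S3) (B := B) (by
      rintro m hm ⟨he, hr⟩
      have he' : m % 2 = 0 := by simpa using he
      by_cases hd : Low (-(1 / 8)) (pw J (T m))
      · exact Or.inr ⟨he', hd, hr⟩
      · left
        by_cases hs2 : m ∈ S2
        · exact Or.inr hs2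
        · left
          have hm100 : 100 ≤ m := ((le_max_left _ _).trans (le_max_left _ _)).trans hm
          obtain ⟨c, hc, -⟩ := crit_unique m (by omega)
          refine ⟨he', c, hc, ?_⟩
          have h7 := (hB1 m (((le_max_left _ _).trans (le_max_right _ _)).trans hm) he' c hc).1 hd
          obtain ⟨k0, hk0⟩ := hr
          have hex : ∃ k : ℕ, T^[k] m ≤ N := ⟨k0, by rw [hk0]; omega⟩
          have h8 : T^[Nat.find hex] m ≤ N := Nat.find_spec hex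
          have h9 : ∀ i : ℕ, i < Nat.find hex → N < T^[i] m := by
            intro i hi
            have := Nat.find_min hex hi
            omega
          have hnl : ¬ ∃ k : ℕ, J + 1 ≤ k ∧ (5 / 2 : ℝ) * (m : ℝ) < ((T^[k] m : ℕ) : ℝ) ∧
              ∀ i ≤ k, N < T^[i] m := by
            rintro ⟨k, hk, h10⟩
            exact hs2 ⟨he', k, by omega, h10⟩
          have h10 := inj_atE hm100 (((le_max_right _ _).trans (le_max_left _ _)).trans hm) h7.1 h7.2 h8 h9 hnl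
          have hmB2 : B2 ≤ m := ((le_max_right _ _).trans (le_max_right _ _)).trans hm
          refine ⟨hB2 m ((le_max_left _ _).trans hmB2) (Nat.find hex) c h8 h9 h10.1 ⟨k0, hk0⟩, ?_⟩
          intro k
          rcases Nat.lt_or_ge k (Nat.find hex) with h11 | h11
          · exact h10.2 k h11.le
          · refine inj_afterE hm100 h10.1 (fun i hi => ?_) k h11
            have h12 : T^[i] m ≤ M := by
              have h13 := hM (T^[Nat.find hex] m) h8 ⟨k0 - Nat.find hex, ?_⟩ (i - Nat.find hex)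
              · rw [← Function.iterate_add_apply] at h13
                have e : i - Nat.find hex + Nat.find hex = i := by omega
                rwa [e] at h13
              · rw [← Function.iterate_add_apply]
                have hle : Nat.find hex ≤ k0 := Nat.find_min' hex (by rw [hk0]; omega)
                have e : k0 - Nat.find hex + Nat.find hex = k0 := by omega
                rw [e]
                exact hk0
            have h14 : T^[i] m ≤ m := h12.trans ((le_max_right _ _).trans hmB2)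
            have h15 : ((T^[i] m : ℕ) : ℝ) ≤ m := by exact_mod_cast h14
            have h16 : (0 : ℝ) ≤ m := Nat.cast_nonneg m
            linarith) X
  have h7 := cnt_union_le (SE ∪ S2) S3 X
  have h8 := cnt_union_le SE S2 X
  have h9 := h3 X hXa
  have h10 := (abs_le.1 (h4 X hXc 0)).1
  have hX0 : (0 : ℝ) ≤ X := Nat.cast_nonneg X
  have h11 : cnt S3 X ≤ lowN J * ((d / 2 ^ (J + 1) + ε / 5 / 2 ^ J) * X) := by
    apply words_count J (fun w => Low (-(1 / 8)) w) X E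
    intro r
    have h12 := (abs_le.1 (h5 X hXd r)).2
    have h13 : d * (X : ℝ) / ((2 ^ (J + 1) : ℕ) : ℝ) = d / 2 ^ (J + 1) * X := by
      push_cast
      ring
    rw [h13] at h12
    have h14 : cnt {m : ℕ | m % 2 ^ (J + 1) = r % 2 ^ (J + 1) ∧ m ∈ E} X - d / 2 ^ (J + 1) * X ≤
        ε / 5 / 2 ^ J * X := h12
    rw [add_mul]
    linarith
  have h12 : lowN J * ((d / 2 ^ (J + 1) + ε / 5 / 2 ^ J) * X) ≤ (p * d / 2 + ε / 5) * X := by
    refine (mul_le_mul_of_nonneg_right (hp J) (by positivity)).trans ?_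
    have h14 : p * 2 ^ J * ((d / 2 ^ (J + 1) + ε / 5 / 2 ^ J) * X) = (p * d / 2 + p * (ε / 5)) * X := by
      rw [pow_succ]
      field_simp
    rw [h14]
    apply mul_le_mul_of_nonneg_right _ hX0
    have : p * (ε / 5) ≤ 1 * (ε / 5) := mul_le_mul_of_nonneg_right hp1 (by positivity)
    linarith
  have h13 : (B : ℝ) ≤ ε / 5 * X := by
    have h14 : (B : ℝ) / (ε / 5) ≤ X := hX2.trans (by exact_mod_cast hXb)
    rw [div_le_iff₀ (by positivity)] at h14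
    linarith
  have h14 : (ε / 5 + C2 * (N : ℝ) ^ (-(1 / 40) : ℝ)) * X ≤ (ε / 5 + ε / 5) * X := by
    apply mul_le_mul_of_nonneg_right _ hX0
    linarith
  push_cast at h10
  have h15 : ((1 - p) * d / 2 - ε) * X = d * X / 2 - p * d / 2 * X - ε * X := by ring
  rw [h15]
  linarith

theorem dens_upE {p d : ℝ} (hp : Filter.Tendsto (fun J : ℕ => lowN J / 2 ^ J) Filter.atTop (nhds p))
    (hden : ∀ M : ℕ, 1 ≤ M → ∀ ε : ℝ, 0 < ε → ∃ X0 : ℕ, ∀ X : ℕ,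
    X0 ≤ X → ∀ r : ℕ, |cnt {n : ℕ | n % M = r % M ∧ ∃ k : ℕ, T^[k] n = 1} X - d * X / M| ≤ ε * X)
    (hd : 0 ≤ d) {ε : ℝ} (hε : 0 < ε) :
    ∃ X0 : ℕ, ∀ X : ℕ, X0 ≤ X → cnt SE X ≤ ((1 - p) * d / 2 + ε) * X := by
  obtain ⟨l, hl⟩ := (hp.eventually (lt_mem_nhds (show p - ε / (d + 1) < p by
    have : 0 < ε / (d + 1) := by positivity
    linarith))).exists
  rw [lt_div_iff₀ (by positivity)] at hl
  obtain ⟨B1, hB1⟩ := both_allE l
  set B : ℕ := max 1 B1 with hB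
  obtain ⟨X4, h5⟩ := hden (2 ^ (l + 1)) Nat.one_le_two_pow (ε / 4 / 2 ^ l) (by positivity)
  obtain ⟨X2, hX2⟩ := exists_nat_ge ((B : ℝ) / (ε / 4))
  refine ⟨max X2 X4, fun X hX => ?_⟩
  have hXb : X2 ≤ X := (le_max_left _ _).trans hX
  have hXd : X4 ≤ X := (le_max_right _ _).trans hX
  have hX0 : (0 : ℝ) ≤ X := Nat.cast_nonneg X
  set E : Set ℕ := {n : ℕ | ∃ k : ℕ, T^[k] n = 1} with hE
  have h6 := cnt_almost (S := SE) (S' := {m : ℕ | m % 2 = 0 ∧ (¬ Low (-(1 / 8)) (pw l (T m))) ∧ m ∈ E}) (B := B) (by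
      rintro m hm ⟨he, c, hc, h1, h2⟩
      have hm1 : 1 ≤ m := (le_max_left _ _).trans hm
      refine ⟨he, fun hlow => ?_, reach_E hm1 h1 h2⟩
      obtain ⟨i, -, h3⟩ := (hB1 m ((le_max_right _ _).trans hm) he c hc).2 hlow
      exact h3 (h2 i)) X
  have h7 : cnt {m : ℕ | m % 2 = 0 ∧ (¬ Low (-(1 / 8)) (pw l (T m))) ∧ m ∈ E} X ≤
      ({w : List Bool | w.length = l ∧ ¬ Low (-(1 / 8)) w}.ncard : ℝ) *
        ((d / 2 ^ (l + 1) + ε / 4 / 2 ^ l) * X) := by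
    apply words_count l (fun w => ¬ Low (-(1 / 8)) w) X E
    intro r
    have h12 := (abs_le.1 (h5 X hXd r)).2
    have h13 : d * (X : ℝ) / ((2 ^ (l + 1) : ℕ) : ℝ) = d / 2 ^ (l + 1) * X := by
      push_cast
      ring
    rw [h13] at h12
    have h14 : cnt {m : ℕ | m % 2 ^ (l + 1) = r % 2 ^ (l + 1) ∧ m ∈ E} X - d / 2 ^ (l + 1) * X ≤
        ε / 4 / 2 ^ l * X := h12
    rw [add_mul]
    linarith
  have h8 : ({w : List Bool | w.length = l ∧ ¬ Low (-(1 / 8)) w}.ncard : ℝ) ≤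
      (1 - p + ε / (d + 1)) * 2 ^ l := by
    have h9 := words_compl l (fun w => Low (-(1 / 8)) w)
    have h10 : ({w : List Bool | w.length = l ∧ Low (-(1 / 8)) w}.ncard : ℝ) = lowN l := rfl
    rw [h10] at h9
    have h11 : (1 - p + ε / (d + 1)) * 2 ^ l = 2 ^ l - (p - ε / (d + 1)) * 2 ^ l := by ring
    rw [h11]
    linarith
  have h9 : ({w : List Bool | w.length = l ∧ ¬ Low (-(1 / 8)) w}.ncard : ℝ) ≤ 2 ^ l := by
    have h9 := words_compl l (fun w => Low (-(1 / 8)) w)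
    have h10 : (0 : ℝ) ≤ ({w : List Bool | w.length = l ∧ Low (-(1 / 8)) w}.ncard : ℝ) := Nat.cast_nonneg _
    linarith
  set W : ℝ := ({w : List Bool | w.length = l ∧ ¬ Low (-(1 / 8)) w}.ncard : ℝ) with hW
  have h10 : W * ((d / 2 ^ (l + 1) + ε / 4 / 2 ^ l) * X) ≤ ((1 - p) * d / 2 + ε / 2 + ε / 4) * X := by
    have e : W * ((d / 2 ^ (l + 1) + ε / 4 / 2 ^ l) * X) = (W * (d / 2 ^ (l + 1)) + W * (ε / 4 / 2 ^ l)) * X := by
      ring
    rw [e]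
    apply mul_le_mul_of_nonneg_right _ hX0
    have h11 : W * (d / 2 ^ (l + 1)) ≤ (1 - p + ε / (d + 1)) * 2 ^ l * (d / 2 ^ (l + 1)) :=
      mul_le_mul_of_nonneg_right h8 (by positivity)
    have h12 : (1 - p + ε / (d + 1)) * 2 ^ l * (d / 2 ^ (l + 1)) = (1 - p) * d / 2 + ε * (d / (d + 1)) / 2 := by
      rw [pow_succ]
      field_simp
    have h13 : W * (ε / 4 / 2 ^ l) ≤ 2 ^ l * (ε / 4 / 2 ^ l) := mul_le_mul_of_nonneg_right h9 (by positivity)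
    have h14 : (2 : ℝ) ^ l * (ε / 4 / 2 ^ l) = ε / 4 := by field_simp
    have h15 : ε * (d / (d + 1)) ≤ ε * 1 := by
      apply mul_le_mul_of_nonneg_left _ hε.le
      rw [div_le_one (by positivity)]
      linarith
    linarith
  have h11 : (B : ℝ) ≤ ε / 4 * X := by
    have h14 : (B : ℝ) / (ε / 4) ≤ X := hX2.trans (by exact_mod_cast hXb)
    rw [div_le_iff₀ (by positivity)] at h14
    linarith
  have h12 : ((1 - p) * d / 2 + ε) * X = ((1 - p) * d / 2 + ε / 2 + ε / 4) * X + ε / 4 * X := by ring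
  rw [h12]
  linarith

end Pool.Agent.Lib.MP_a247fa_nt.CE
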